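import Pool.Agent.H20.TP.Loc

/-!
# [H20 RT Dis] THEOREM R (MP_e49dc9_ag): the discreteness of `T(p,.,S)`

`th_dis`: `S` a prime divisor with generic point `z`, `e` in the cone `M_S`, `T(e,e,S) = 0`, `T(e,S,S) < 0`, `T(e,A,S) > 0`: then `T(e,.,S)` is a
positive multiple of an integral functional `δ` with value `1` at some lattice point.  (Step (3) of `H20/TP/LocB`.)
-/

set_option autoImplicit false

namespace Pool.Agent.H20.RT

open Pool.Agent.H54.RV Pool.Agent.H83.TU Pool.Agent.H83.TK Pool.Agent.H20.TD Pool.Agent.H20.TP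
open Pool.Agent.H24.VP (RR chS)

variable {k K : Type} [Field k] [Field K] [Algebra k K] {X : Mod k K} {r : ℕ}
  {ν : Cart X →* Multiplicative (Fin r → ℤ)} {T : Cart X → Cart X → Cart X → ℝ} {l : Cart X → ℝ} {c : ℝ} {TR : Tri3 r}
  {z : X.P} {S : Cart X} {e : Fin r → ℝ}

section lin

private lemma lin_bd (φ : (Fin r → ℝ) →ₗ[ℝ] ℝ) : ∃ M : ℝ, 0 ≤ M ∧ ∀ v, |φ v| ≤ M * ‖v‖ :=
  ⟨‖LinearMap.toContinuousLinearMap φ‖, norm_nonneg _, fun v =>
    (LinearMap.toContinuousLinearMap φ).le_opNorm v⟩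

private lemma bil_bd (B : (Fin r → ℝ) →ₗ[ℝ] (Fin r → ℝ) →ₗ[ℝ] ℝ) :
    ∃ M : ℝ, 0 ≤ M ∧ ∀ u v, |B u v| ≤ M * ‖u‖ * ‖v‖ := by
  classical
  choose M hM0 hM using fun i : Fin r => lin_bd (B (fun j => if i = j then 1 else 0))
  refine ⟨∑ i, M i, Finset.sum_nonneg fun i _ => hM0 i, fun u v => ?_⟩
  rw [LinearMap.pi_apply_eq_sum_univ B u, LinearMap.sum_apply]
  refine (Finset.abs_sum_le_sum_abs _ _).trans ?_
  rw [Finset.sum_mul, Finset.sum_mul]
  refine Finset.sum_le_sum fun i _ => ?_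
  rw [LinearMap.smul_apply, smul_eq_mul, abs_mul]
  have h1 := hM i v
  have h2 : |u i| ≤ ‖u‖ := norm_le_pi_norm u i
  calc |u i| * |B (fun j => if i = j then 1 else 0) v| ≤ ‖u‖ * (M i * ‖v‖) :=
        mul_le_mul h2 h1 (abs_nonneg _) (norm_nonneg _)
    _ = M i * ‖u‖ * ‖v‖ := by ring

private lemma rnd (x : Fin r → ℝ) : ∃ d : Fin r → ℤ, ‖rv d - x‖ ≤ 1 := by
  refine ⟨fun i => ⌊x i⌋, ?_⟩
  rw [pi_norm_le_iff_of_nonneg zero_le_one]
  intro i
  rw [Pi.sub_apply, Real.norm_eq_abs, abs_le]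
  have h1 := Int.floor_le (x i)
  have h2 := Int.lt_floor_add_one (x i)
  show -1 ≤ ((⌊x i⌋ : ℤ) : ℝ) - x i ∧ ((⌊x i⌋ : ℤ) : ℝ) - x i ≤ 1
  constructor <;> linarith

private lemma rv_sub (D E : Fin r → ℤ) : rv (D - E) = rv D - rv E := by
  funext i
  simp [rv]

private lemma disc (Th : (Fin r → ℝ) →ₗ[ℝ] ℝ) {κ : ℝ} (hκ : 0 < κ)
    (h : ∀ d : Fin r → ℤ, ¬ (-κ < Th (rv d) ∧ Th (rv d) < 0)) (hne : ∃ d : Fin r → ℤ, Th (rv d) ≠ 0) :
    ∃ (τ : ℝ) (δ a0 : Fin r → ℤ), 0 < τ ∧ (∀ v, Th v = τ * (rv δ ⬝ᵥ v)) ∧ rv δ ⬝ᵥ rv a0 = 1 := by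
  classical
  set f : (Fin r → ℤ) →+ ℝ :=
    { toFun := fun d => Th (rv d)
      map_zero' := by
        have : rv (0 : Fin r → ℤ) = 0 := by
          funext i
          simp [rv]
        show Th (rv 0) = 0
        rw [this, map_zero]
      map_add' := fun d e => by
        show Th (rv (d + e)) = _
        rw [rv_add, map_add] } with hf
  have hfa : ∀ d, f d = Th (rv d) := fun d => rfl
  have hd : Disjoint (f.range : Set ℝ) (Set.Ioo 0 κ) := by
    rw [Set.disjoint_left]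
    rintro x ⟨d, rfl⟩ ⟨h1, h2⟩
    rw [hfa] at h1 h2
    refine h (-d) ?_
    rw [rv_neg, map_neg]
    constructor <;> linarith
  obtain ⟨b, hb⟩ := AddSubgroup.cyclic_of_isolated_zero hκ hd
  have hb0 : b ≠ 0 := by
    rintro rfl
    obtain ⟨d, hd⟩ := hne
    have h1 : f d ∈ f.range := ⟨d, rfl⟩
    rw [hb, AddSubgroup.mem_closure_singleton] at h1
    obtain ⟨n, hn⟩ := h1
    rw [smul_zero] at hn
    exact hd hn.symm
  obtain ⟨τ, hτ, hτ1, hτ2⟩ : ∃ τ : ℝ, 0 < τ ∧ τ ∈ f.range ∧ ∀ x ∈ f.range, ∃ n : ℤ, x = n * τ := by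
    have hbm : b ∈ f.range := by
      rw [hb]
      exact AddSubgroup.mem_closure_singleton_self b
    rcases lt_or_gt_of_ne hb0 with hlt | hgt
    · refine ⟨-b, by linarith, f.range.neg_mem hbm, fun x hx => ?_⟩
      rw [hb, AddSubgroup.mem_closure_singleton] at hx
      obtain ⟨n, hn⟩ := hx
      refine ⟨-n, ?_⟩
      rw [← hn, zsmul_eq_mul]
      push_cast
      ring
    · refine ⟨b, hgt, hbm, fun x hx => ?_⟩
      rw [hb, AddSubgroup.mem_closure_singleton] at hx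
      obtain ⟨n, hn⟩ := hx
      exact ⟨n, by rw [← hn, zsmul_eq_mul]⟩
  choose δ hδ using fun i : Fin r => hτ2 (f (Pi.single i 1)) ⟨_, rfl⟩
  have hTh : ∀ v, Th v = τ * (rv δ ⬝ᵥ v) := by
    intro v
    rw [LinearMap.pi_apply_eq_sum_univ Th v, dotProduct, Finset.mul_sum]
    refine Finset.sum_congr rfl fun i _ => ?_
    have h1 : (fun j => if i = j then (1 : ℝ) else 0) = rv (Pi.single i 1) := by
      rw [rv_single]
      funext j
      by_cases hij : i = j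
      · subst hij
        simp
      · rw [if_neg hij, Pi.single_eq_of_ne (fun h => hij h.symm)]
    rw [h1, ← hfa, hδ i, smul_eq_mul]
    show v i * ((δ i : ℝ) * τ) = τ * ((δ i : ℝ) * v i)
    ring
  obtain ⟨a0, ha0⟩ := hτ1
  refine ⟨τ, δ, a0, hτ, hTh, ?_⟩
  rw [hfa, hTh] at ha0
  have h1 : τ * (rv δ ⬝ᵥ rv a0) = τ * 1 := by rw [ha0, mul_one]
  exact mul_left_cancel₀ hτ.ne' h1

end lin

/-- the form `(u, v) ↦ T(u, v, S)` -/
private noncomputable def Bfm (TR : Tri3 r) (s' : Fin r → ℝ) : (Fin r → ℝ) →ₗ[ℝ] (Fin r → ℝ) →ₗ[ℝ] ℝ :=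
  LinearMap.compr₂ TR (LinearMap.applyₗ (R := ℝ) (M := Fin r → ℝ) (M₂ := ℝ) s')

private lemma Bfm_apply (TR : Tri3 r) (s' u v : Fin r → ℝ) : Bfm TR s' u v = TR u v s' := rfl

private lemma tr_symm (hr : RR T l c) (hν : NumR ν)
    (hT : ∀ U V W, TR (cR ν U) (cR ν V) (cR ν W) = T U V W) (u v w : Fin r → ℝ) : TR u v w = TR v u w := by
  have e1 : ∀ D E : Cart X, TR (cR ν D) (cR ν E) = TR (cR ν E) (cR ν D) := by
    intro D E
    have h1 : ∀ F : Cart X, TR (cR ν D) (cR ν E) (rv (ci ν F)) = TR (cR ν E) (cR ν D) (rv (ci ν F)) := by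
      intro F
      have h2 := hT E D F
      have h3 := hT D E F
      rw [h2, h3, hr.tri.s12]
    exact ext_uniq hν h1
  have e2 : ∀ D : Cart X, TR (cR ν D) = LinearMap.flip TR (cR ν D) := by
    intro D
    have h1 : ∀ E : Cart X, TR (cR ν D) (rv (ci ν E)) = LinearMap.flip TR (cR ν D) (rv (ci ν E)) := by
      intro E
      rw [LinearMap.flip_apply]
      exact e1 D E
    exact ext_uniq hν h1
  have e3 : (TR : (Fin r → ℝ) →ₗ[ℝ] ((Fin r → ℝ) →ₗ[ℝ] (Fin r → ℝ) →ₗ[ℝ] ℝ)) = LinearMap.flip TR :=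
    ext_uniq (F := (Fin r → ℝ) →ₗ[ℝ] (Fin r → ℝ) →ₗ[ℝ] ℝ) hν (L := TR) (L' := LinearMap.flip TR) e2
  have h4 : LinearMap.flip TR v u = TR v u := by rw [← e3]
  rw [LinearMap.flip_apply] at h4
  rw [h4]

/-- sections of the lattice points on the nef side of `e` -/
private lemma sec_pos [CharZero k] [IsAlgClosed k] [T0Space X.P] (h : Hyp X) (hr : RR T l c) (hν : NumR ν)
    (hT : ∀ U V W, TR (cR ν U) (cR ν V) (cR ν W) = T U V W)
    (htr : Algebra.trdeg k (X.kap z) = 2) (hS : SPr X z S) (he : MS hν h.var TR z S e)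
    (h2 : TR e e (cR ν S) = 0) (h3 : TR e (cR ν S) (cR ν S) < 0) (c₀ : ℝ) (hc₀ : 0 ≤ c₀) :
    ∃ t₁ : ℝ, 0 < t₁ ∧ ∀ W : Cart X, ‖cR ν W - t₁ • e‖ ≤ c₀ →
      TR e (cR ν S) (cR ν S) / 4 ≤ TR e (cR ν W) (cR ν S) → 0 < hz h.var z W := by
  obtain ⟨C, hC⟩ := lb h hr hν htr hS he.deg c₀
  obtain ⟨M, hM0, hM⟩ := bil_bd (Bfm TR (cR ν S))
  set s' := cR ν S with hs'
  obtain ⟨κ, hκ⟩ : ∃ κ : ℝ, κ = - TR e s' s' := ⟨_, rfl⟩
  have hκ0 : 0 < κ := by linarith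
  obtain ⟨Q, hQ⟩ : ∃ Q : ℝ, Q = M * c₀ * c₀ / 2 + M * c₀ * ‖s'‖ / 2 + |T S S S / 6 + l S| + |C| := ⟨_, rfl⟩
  have hQ0 : 0 ≤ Q := by rw [hQ]; positivity
  refine ⟨4 * (Q + 1) / κ, by positivity, fun W hW hW2 => ?_⟩
  set t := 4 * (Q + 1) / κ with ht
  have ht0 : 0 < t := by positivity
  have htκ : t * κ = 4 * (Q + 1) := by rw [ht]; field_simp
  obtain ⟨w, hw⟩ : ∃ w : Fin r → ℝ, w = cR ν W - t • e := ⟨_, rfl⟩
  have hWw : cR ν W = t • e + w := by rw [hw]; abel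
  rw [← hw] at hW
  have hTh : TR e (cR ν W) s' = TR e w s' := by
    rw [hWw, map_add, map_smul, LinearMap.add_apply, LinearMap.smul_apply, h2, smul_zero, zero_add]
  have hsym := tr_symm hr hν hT
  have hWW : T W W S = 2 * t * TR e w s' + TR w w s' := by
    rw [← hT, ← hs', hWw]
    simp only [map_add, map_smul, LinearMap.add_apply, LinearMap.smul_apply, smul_eq_mul, h2]
    rw [hsym w e s']
    ring
  have hWS : T W S S = t * TR e s' s' + TR w s' s' := by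
    rw [← hT, ← hs', hWw]
    simp only [map_add, map_smul, LinearMap.add_apply, LinearMap.smul_apply, smul_eq_mul]
  have hb1 : |TR w w s'| ≤ M * c₀ * c₀ := by
    have h4 := hM w w
    rw [Bfm_apply] at h4
    refine h4.trans ?_
    exact mul_le_mul (mul_le_mul_of_nonneg_left hW hM0) hW (norm_nonneg _) (by positivity)
  have hb2 : |TR w s' s'| ≤ M * c₀ * ‖s'‖ := by
    have h4 := hM w s'
    rw [Bfm_apply] at h4
    refine h4.trans ?_
    exact mul_le_mul_of_nonneg_right (mul_le_mul_of_nonneg_left hW hM0) (norm_nonneg _)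
  have h5 := hC t W ht0.le (by rw [← hw]; exact hW)
  have h6 : chS T l S W = T W W S / 2 - T W S S / 2 + T S S S / 6 + l S := rfl
  rw [h6, hWW, hWS] at h5
  rw [hTh] at hW2
  have h7 := (abs_le.mp hb1).1
  have h8 := (abs_le.mp hb2).2
  have h9 := (abs_le.mp (le_refl |T S S S / 6 + l S|)).1
  have h10 := le_abs_self C
  have h11 : t * (TR e s' s' / 4) ≤ t * TR e w s' := mul_le_mul_of_nonneg_left hW2 ht0.le
  have h12 : (0 : ℝ) < (hz h.var z W : ℝ) := by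
    have h13 : TR e s' s' = - κ := by rw [hκ]; ring
    rw [h13] at h5 h11
    have h14 : t * (-κ / 4) = - (Q + 1) := by
      have : t * (-κ / 4) = - (t * κ) / 4 := by ring
      rw [this, htκ]
      ring
    rw [h14] at h11
    have h15 : t * -κ = - (4 * (Q + 1)) := by
      have : t * -κ = - (t * κ) := by ring
      rw [this, htκ]
    rw [h15] at h5
    linarith
  exact_mod_cast h12

/-- **`T(e,.,S)` is a multiple of an integral functional** -/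
theorem th_dis [CharZero k] [IsAlgClosed k] [T0Space X.P] (h : Hyp X) (hr : RR T l c) (hν : NumR ν)
    (hT : ∀ U V W, TR (cR ν U) (cR ν V) (cR ν W) = T U V W)
    (htr : Algebra.trdeg k (X.kap z) = 2) (hS : SPr X z S) {A : Cart X} (he : MS hν h.var TR z S e)
    (h1 : 0 < TR e (cR ν A) (cR ν S)) (h2 : TR e e (cR ν S) = 0) (h3 : TR e (cR ν S) (cR ν S) < 0) :
    ∃ (τ : ℝ) (δ a0 : Fin r → ℤ), 0 < τ ∧ (∀ v, TR e v (cR ν S) = τ * (rv δ ⬝ᵥ v)) ∧ rv δ ⬝ᵥ rv a0 = 1 := by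
  classical
  have hsec := sec_pos h hr hν hT htr hS he h2 h3
  choose Dv hDv using fun q : Fin r → ℤ => ci_surj hν q
  have hDc : ∀ q, cR ν (Dv q) = rv q := fun q => by
    show rv (ci ν (Dv q)) = rv q
    rw [hDv q]
  obtain ⟨κ, hκ⟩ : ∃ κ : ℝ, κ = - TR e (cR ν S) (cR ν S) / 4 := ⟨_, rfl⟩
  have hκ0 : 0 < κ := by linarith
  obtain ⟨Th, hTh⟩ : ∃ Th : (Fin r → ℝ) →ₗ[ℝ] ℝ, ∀ v, Th v = TR e v (cR ν S) := ⟨Bfm TR (cR ν S) e, fun v => rfl⟩
  have hThe : Th e = 0 := by rw [hTh]; exact h2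
  obtain ⟨M, hM0, hM⟩ := lin_bd Th
  -- lattice points near the ray with sections
  have hsecq : ∀ c₀ : ℝ, 0 ≤ c₀ → ∃ t₁ : ℝ, 0 < t₁ ∧ ∀ q : Fin r → ℤ, ‖rv q - t₁ • e‖ ≤ c₀ →
      -κ ≤ Th (rv q) → 0 < hz h.var z (Dv q) := by
    intro c₀ hc₀
    obtain ⟨t₁, ht₁, h4⟩ := hsec c₀ hc₀
    refine ⟨t₁, ht₁, fun q hq hq2 => h4 (Dv q) (by rw [hDc]; exact hq) ?_⟩
    have h5 := hTh (rv q)
    rw [hDc, ← h5]
    rw [hκ] at hq2
    linarith
  have hThnn : ∀ q : Fin r → ℤ, 0 < hz h.var z (Dv q) → 0 ≤ Th (rv q) := by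
    intro q hq
    have h4 := he.eff (Dv q) hq
    rw [hDc] at h4
    rw [hTh]
    exact h4
  -- discreteness
  have hdis : ∀ d : Fin r → ℤ, ¬ (-κ < Th (rv d) ∧ Th (rv d) < 0) := by
    rintro d ⟨h4, h5⟩
    obtain ⟨τ0, hτ0⟩ : ∃ τ0 : ℝ, τ0 = - Th (rv d) := ⟨_, rfl⟩
    have hτ1 : 0 < τ0 := by linarith
    obtain ⟨t₁, ht₁, h6⟩ := hsecq (1 + (M / τ0 + 1) * ‖rv d‖) (by positivity)
    obtain ⟨q, hq⟩ := rnd (t₁ • e)
    have h7 : |Th (rv q)| ≤ M := by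
      have h8 := hM (rv q - t₁ • e)
      rw [map_sub, map_smul, hThe, smul_zero, sub_zero] at h8
      refine h8.trans ?_
      calc M * ‖rv q - t₁ • e‖ ≤ M * 1 := mul_le_mul_of_nonneg_left hq hM0
        _ = M := mul_one M
    obtain ⟨n, hn⟩ : ∃ n : ℤ, n = ⌊Th (rv q) / τ0⌋ + 1 := ⟨_, rfl⟩
    have hn1 : Th (rv q) / τ0 < n := by
      rw [hn]
      push_cast
      exact Int.lt_floor_add_one _
    have hn2 : (n : ℝ) ≤ Th (rv q) / τ0 + 1 := by
      rw [hn]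
      push_cast
      linarith [Int.floor_le (Th (rv q) / τ0)]
    rw [div_lt_iff₀ hτ1] at hn1
    have hn3 : (n : ℝ) * τ0 ≤ Th (rv q) + τ0 := by
      have := mul_le_mul_of_nonneg_right hn2 hτ1.le
      rw [add_mul, div_mul_cancel₀ _ hτ1.ne', one_mul] at this
      exact this
    have hnabs : |(n : ℝ)| ≤ M / τ0 + 1 := by
      have h8 : |(n : ℝ)| * τ0 ≤ M + τ0 := by
        have h9 : |(n : ℝ)| * τ0 = |(n : ℝ) * τ0| := by
          rw [abs_mul, abs_of_pos hτ1]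
        rw [h9, abs_le]
        have h10 := abs_le.mp h7
        constructor <;> linarith [h10.1, h10.2]
      have h12 : (M + τ0) / τ0 = M / τ0 + 1 := by field_simp
      rw [← h12, le_div_iff₀ hτ1]
      exact h8
    have h8 : rv (q + n • d) = rv q + (n : ℝ) • rv d := by rw [rv_add, rv_smul]
    have h9 : Th (rv (q + n • d)) = Th (rv q) - n * τ0 := by
      rw [h8, map_add, map_smul, smul_eq_mul, hτ0]
      ring
    have h10 := h6 (q + n • d) (by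
      rw [h8]
      have h11 : rv q + (n : ℝ) • rv d - t₁ • e = (rv q - t₁ • e) + (n : ℝ) • rv d := by abel
      rw [h11]
      refine (norm_add_le _ _).trans (add_le_add hq ?_)
      rw [norm_smul, Real.norm_eq_abs]
      exact mul_le_mul_of_nonneg_right hnabs (norm_nonneg _)) (by
      rw [h9]
      linarith)
    have h11 := hThnn _ h10
    rw [h9] at h11
    linarith
  have hTha : 0 < Th (cR ν A) := by rw [hTh]; exact h1
  obtain ⟨τ, δ, a0, hτ, hThδ, hδa0⟩ := disc Th hκ0 hdis ⟨ci ν A, hTha.ne'⟩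
  exact ⟨τ, δ, a0, hτ, fun v => by rw [← hTh, hThδ], hδa0⟩

end Pool.Agent.H20.RT
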