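import Pool.Agent.H20.TD.Lem
import Pool.Agent.H32.TN.Dio

/-!
# [H20 RT Vp] THEOREM R (MP_e49dc9_ag): the smallest rational subspace containing a real vector

`Vp p`: the `w` which are killed by every integral functional which kills `p`.
* `vp_span`: `Vp p` is spanned by its integral points.
* `vp_near`: for every `x` there is an integral point of `Vp p` within `C` of `x p`.
* `vp_dio`: integral points of `Vp p` within `ε` of `x p`, `x` large (Dirichlet).
-/

set_option autoImplicit false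

namespace Pool.Agent.H20.RT

open Pool.Agent.H20.TD

variable {r : ℕ}

/-- the smallest rational subspace containing `p` -/
def Vp (p : Fin r → ℝ) : Submodule ℝ (Fin r → ℝ) where
  carrier := {w | ∀ φ : Fin r → ℤ, rv φ ⬝ᵥ p = 0 → rv φ ⬝ᵥ w = 0}
  add_mem' := fun {a b} ha hb φ hφ => by rw [dotProduct_add, ha φ hφ, hb φ hφ, add_zero]
  zero_mem' := fun φ _ => dotProduct_zero _
  smul_mem' := fun c a ha φ hφ => by rw [dotProduct_smul, ha φ hφ, smul_zero]

theorem mem_vp {p w : Fin r → ℝ} : w ∈ Vp p ↔ ∀ φ : Fin r → ℤ, rv φ ⬝ᵥ p = 0 → rv φ ⬝ᵥ w = 0 := Iff.rfl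

theorem self_vp (p : Fin r → ℝ) : p ∈ Vp p := fun _ h => h

/-- the integral points of `Vp p` span it -/
theorem vp_sum (p : Fin r → ℝ) {w : Fin r → ℝ} (hw : w ∈ Vp p) :
    ∃ (c : Fin r → ℝ) (d : Fin r → Fin r → ℤ), (∀ j, rv (d j) ∈ Vp p) ∧ w = ∑ j, c j • rv (d j) := by
  classical
  -- the integral functionals
  obtain ⟨Φ, hΦ⟩ : ∃ Φ : Submodule ℚ (Module.Dual ℚ (Fin r → ℚ)), Φ = Submodule.span ℚ
    {f | ∃ φ : Fin r → ℤ, rv φ ⬝ᵥ p = 0 ∧ ∀ v, f v = ∑ i, (φ i : ℚ) * v i} := ⟨_, rfl⟩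
  obtain ⟨U, hU⟩ : ∃ U : Submodule ℚ (Fin r → ℚ), U = Φ.dualCoannihilator := ⟨_, rfl⟩
  have hUm : ∀ u : Fin r → ℚ, u ∈ U → ∀ φ : Fin r → ℤ, rv φ ⬝ᵥ p = 0 → ∑ i, (φ i : ℚ) * u i = 0 := by
    intro u hu φ hφ
    rw [hU, Submodule.mem_dualCoannihilator] at hu
    have h1 := hu (∑ i, (φ i : ℚ) • LinearMap.proj i) (by
      rw [hΦ]
      exact Submodule.subset_span ⟨φ, hφ, fun v => by simp [LinearMap.sum_apply]⟩)
    simpa [LinearMap.sum_apply] using h1
  obtain ⟨U', hUU'⟩ := Submodule.exists_isCompl U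
  obtain ⟨P, hP⟩ : ∃ P : (Fin r → ℚ) →ₗ[ℚ] (Fin r → ℚ), P = U.subtype ∘ₗ Submodule.projectionOnto U U' hUU' := ⟨_, rfl⟩
  have hP1 : ∀ v, P v ∈ U := fun v => by
    rw [hP]
    exact Submodule.coe_mem _
  have hP2 : ∀ u ∈ U, P u = u := fun u hu => by
    rw [hP]
    have h1 := Submodule.projectionOnto_apply_left hUU' ⟨u, hu⟩
    exact congrArg Subtype.val h1
  -- the evaluation at `w`
  obtain ⟨ev, hev⟩ : ∃ ev : Module.Dual ℚ (Fin r → ℚ) → ℝ, ∀ f, ev f = ∑ j, ((f (Pi.single j 1) : ℚ) : ℝ) * w j :=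
    ⟨_, fun _ => rfl⟩
  have hev0 : ∀ f ∈ Φ, ev f = 0 := by
    intro f hf
    rw [hΦ] at hf
    refine Submodule.span_induction (p := fun f _ => ev f = 0) ?_ ?_ ?_ ?_ hf
    · rintro f ⟨φ, hφ, h1⟩
      have h2 := hw φ hφ
      rw [hev]
      rw [dotProduct] at h2
      rw [← h2]
      refine Finset.sum_congr rfl fun j _ => ?_
      rw [h1]
      congr 1
      rw [Finset.sum_eq_single j]
      · simp [rv]
      · intro i _ hij
        rw [Pi.single_eq_of_ne hij, mul_zero]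
      · intro h
        exact absurd (Finset.mem_univ _) h
    · rw [hev]
      simp
    · intro f g _ _ h1 h2
      rw [hev] at h1 h2 ⊢
      have h3 : ∑ j, (((f + g) (Pi.single j 1) : ℚ) : ℝ) * w j =
          ∑ j, ((f (Pi.single j 1) : ℚ) : ℝ) * w j + ∑ j, ((g (Pi.single j 1) : ℚ) : ℝ) * w j := by
        rw [← Finset.sum_add_distrib]
        refine Finset.sum_congr rfl fun j _ => ?_
        rw [LinearMap.add_apply]
        push_cast
        ring
      rw [h3, h1, h2, add_zero]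
    · intro a f _ h1
      rw [hev] at h1 ⊢
      rw [← mul_zero (a : ℝ), ← h1, Finset.mul_sum]
      refine Finset.sum_congr rfl fun j _ => ?_
      rw [LinearMap.smul_apply, smul_eq_mul]
      push_cast
      ring
  have hdd : U.dualAnnihilator = Φ := by
    rw [hU]
    exact Subspace.dualCoannihilator_dualAnnihilator_eq
  have hcoord : ∀ i, w i = ∑ j, (((P (Pi.single j 1)) i : ℚ) : ℝ) * w j := by
    intro i
    obtain ⟨pr, hpr⟩ : ∃ pr : (Fin r → ℚ) →ₗ[ℚ] ℚ, pr = LinearMap.proj i := ⟨_, rfl⟩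
    have hpr' : ∀ v, pr v = v i := fun v => by rw [hpr]; rfl
    have h1 : pr ∘ₗ (LinearMap.id - P) ∈ Φ := by
      rw [← hdd, Submodule.mem_dualAnnihilator]
      intro u hu
      rw [LinearMap.comp_apply, LinearMap.sub_apply, LinearMap.id_apply, hP2 u hu, sub_self, map_zero]
    have h2 := hev0 _ h1
    rw [hev] at h2
    have h3 : ∀ j, ((((pr ∘ₗ (LinearMap.id - P)) (Pi.single j 1) : ℚ)) : ℝ) * w j =
        (if j = i then w j else 0) - (((P (Pi.single j 1)) i : ℚ) : ℝ) * w j := by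
      intro j
      rw [LinearMap.comp_apply, LinearMap.sub_apply, LinearMap.id_apply, hpr', Pi.sub_apply]
      by_cases hij : j = i
      · subst hij
        rw [Pi.single_eq_same, if_pos rfl]
        push_cast
        ring
      · rw [Pi.single_eq_of_ne (fun h => hij h.symm), if_neg hij]
        push_cast
        ring
    rw [Finset.sum_congr rfl fun j _ => h3 j, Finset.sum_sub_distrib, Finset.sum_ite_eq' Finset.univ i, if_pos (Finset.mem_univ _)] at h2
    linarith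
  -- clear the denominators
  choose D zz hD hzz using fun j : Fin r => Pool.Agent.H32.TN.clear_den (P (Pi.single j 1))
  refine ⟨fun j => w j / D j, zz, fun j φ hφ => ?_, ?_⟩
  · have h1 := hUm _ (hP1 (Pi.single j 1)) φ hφ
    have h2 : ∑ i, (φ i : ℚ) * (zz j i : ℚ) = 0 := by
      rw [← mul_zero (D j : ℚ), ← h1, Finset.mul_sum]
      refine Finset.sum_congr rfl fun i _ => ?_
      rw [hzz]
      ring
    have h3 : ((∑ i, (φ i : ℚ) * (zz j i : ℚ) : ℚ) : ℝ) = 0 := by rw [h2]; simp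
    push_cast at h3
    exact h3
  · funext i
    rw [Finset.sum_apply, hcoord i]
    refine Finset.sum_congr rfl fun j _ => ?_
    have h1 : ((zz j i : ℚ) : ℝ) = D j * ((P (Pi.single j 1) i : ℚ) : ℝ) := by
      rw [hzz]
      push_cast
      ring
    have h2 : (D j : ℝ) ≠ 0 := by exact_mod_cast (hD j).ne'
    rw [Pi.smul_apply, smul_eq_mul]
    have h3 : rv (zz j) i = D j * ((P (Pi.single j 1) i : ℚ) : ℝ) := by
      rw [← h1]
      simp [rv]
    rw [h3]
    field_simp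

theorem vp_span (p : Fin r → ℝ) : Vp p = Submodule.span ℝ {w | ∃ d : Fin r → ℤ, rv d ∈ Vp p ∧ w = rv d} := by
  refine le_antisymm (fun w hw => ?_) (Submodule.span_le.2 ?_)
  · obtain ⟨c, d, h1, rfl⟩ := vp_sum p hw
    exact Submodule.sum_mem _ fun j _ => Submodule.smul_mem _ _ (Submodule.subset_span ⟨d j, h1 j, rfl⟩)
  · rintro w ⟨d, hd, rfl⟩
    exact hd

/-- integral points of `Vp p` near the ray of `p` -/
theorem vp_near (p : Fin r → ℝ) : ∃ C : ℝ, 0 ≤ C ∧ ∀ x : ℝ, ∃ d : Fin r → ℤ, rv d ∈ Vp p ∧ ‖rv d - x • p‖ ≤ C := by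
  classical
  obtain ⟨c, d, h1, h2⟩ := vp_sum p (self_vp p)
  refine ⟨∑ j, ‖rv (d j)‖, by positivity, fun x => ⟨∑ j, ⌊x * c j⌋ • d j, ?_, ?_⟩⟩
  · have e : rv (∑ j, ⌊x * c j⌋ • d j) = ∑ j, (⌊x * c j⌋ : ℝ) • rv (d j) := by
      funext i
      simp [rv, Finset.sum_apply]
    rw [e]
    exact Submodule.sum_mem _ fun j _ => Submodule.smul_mem _ _ (h1 j)
  · have e : rv (∑ j, ⌊x * c j⌋ • d j) - x • p = ∑ j, ((⌊x * c j⌋ : ℝ) - x * c j) • rv (d j) := by
      conv_lhs => rw [h2]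
      rw [Finset.smul_sum]
      have e1 : rv (∑ j, ⌊x * c j⌋ • d j) = ∑ j, (⌊x * c j⌋ : ℝ) • rv (d j) := by
        funext i
        simp [rv, Finset.sum_apply]
      rw [e1, ← Finset.sum_sub_distrib]
      refine Finset.sum_congr rfl fun j _ => ?_
      rw [smul_smul, sub_smul]
    rw [e]
    refine (norm_sum_le _ _).trans (Finset.sum_le_sum fun j _ => ?_)
    rw [norm_smul, Real.norm_eq_abs]
    refine mul_le_of_le_one_left (norm_nonneg _) ?_
    rw [abs_le]
    have h3 := Int.lt_floor_add_one (x * c j)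
    have h4 := Int.floor_le (x * c j)
    constructor <;> linarith

/-- Dirichlet -/
theorem vp_dio (p : Fin r → ℝ) {ε : ℝ} (hε : 0 < ε) (M : ℝ) :
    ∃ (x : ℝ) (d : Fin r → ℤ), M ≤ x ∧ rv d ∈ Vp p ∧ ‖rv d - x • p‖ ≤ ε := by
  classical
  obtain ⟨c, d, h1, h2⟩ := vp_sum p (self_vp p)
  obtain ⟨S, hS⟩ : ∃ S : ℝ, S = ∑ j, ‖rv (d j)‖ := ⟨_, rfl⟩
  have hS0 : 0 ≤ S := by rw [hS]; positivity
  obtain ⟨x, n, hx, hn⟩ := Pool.Agent.H32.TN.dio c (ε := ε / (S + 1)) (by positivity) M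
  have e1 : rv (∑ j, n j • d j) = ∑ j, (n j : ℝ) • rv (d j) := by
    funext i
    simp [rv, Finset.sum_apply]
  refine ⟨x, ∑ j, n j • d j, hx, ?_, ?_⟩
  · rw [e1]
    exact Submodule.sum_mem _ fun j _ => Submodule.smul_mem _ _ (h1 j)
  · have e : rv (∑ j, n j • d j) - x • p = ∑ j, ((n j : ℝ) - x * c j) • rv (d j) := by
      conv_lhs => rw [h2]
      rw [Finset.smul_sum, e1, ← Finset.sum_sub_distrib]
      refine Finset.sum_congr rfl fun j _ => ?_
      rw [smul_smul, sub_smul]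
    rw [e]
    calc ‖∑ j, ((n j : ℝ) - x * c j) • rv (d j)‖ ≤ ∑ j, ‖((n j : ℝ) - x * c j) • rv (d j)‖ := norm_sum_le _ _
      _ ≤ ∑ j, ε / (S + 1) * ‖rv (d j)‖ := Finset.sum_le_sum fun j _ => by
          rw [norm_smul, Real.norm_eq_abs]
          exact mul_le_mul_of_nonneg_right (hn j) (norm_nonneg _)
      _ = ε / (S + 1) * S := by rw [← Finset.mul_sum, hS]
      _ ≤ ε := by
          rw [div_mul_eq_mul_div, div_le_iff₀ (by linarith)]
          nlinarith

end Pool.Agent.H20.RT
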