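import Pool.Agent.H20.RT.Hdr
import Pool.Agent.H20.RT.Dis
import Pool.Agent.H20.RT.Vp

/-!
# [H20 RT Bgd] THEOREM R (MP_e49dc9_ag), step (2) for one surface

`p` nef, `T(p,p,A) > 0`, `T(p,p,.) = 0` on `Vp p`; `S` a prime divisor with `T(p,p,S) = 0`.
* `int_fun`: a linear functional with integral values on the classes of divisors is `w ↦ φ . w`, `φ` integral.  `vp_int`: it kills `Vp p` if it kills `p`.
* `vp_tri`: `T(p,U,V) = 0 ⟹ T(w,U,V) = 0` for `w ∈ Vp p`.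
* `bgd1`: `T(p,w,S) = 0` for `w ∈ Vp p`.  `bgd2`: `T(w,w',S) = 0` for `w, w' ∈ Vp p`.
* `bgd_sum`: a divisor `W` such that `T(w,w',W) = 0` for all `w, w' ∈ Vp p` (for example a product of such surfaces).
-/

set_option autoImplicit false

namespace Pool.Agent.H20.RT

open Pool.Agent.H54.RV Pool.Agent.H83.TU Pool.Agent.H83.TK Pool.Agent.H20.TD Pool.Agent.H20.TP
open Pool.Agent.H24.VP (RR chS)

variable {k K : Type} [Field k] [Field K] [Algebra k K] {X : Mod k K} {r : ℕ}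
  {ν : Cart X →* Multiplicative (Fin r → ℤ)} {T : Cart X → Cart X → Cart X → ℝ} {l : Cart X → ℝ} {c : ℝ} {TR : Tri3 r}
  {z : X.P} {p w w' : Fin r → ℝ} {A S U V : Cart X}

theorem int_fun (hν : NumR ν) {F : (Fin r → ℝ) →ₗ[ℝ] ℝ} (hF : ∀ D : Cart X, ∃ n : ℤ, F (cR ν D) = n) :
    ∃ φ : Fin r → ℤ, ∀ w, F w = rv φ ⬝ᵥ w := by
  classical
  have h1 : ∀ i : Fin r, ∃ n : ℤ, F (Pi.single i 1) = n := by
    intro i
    obtain ⟨D, hD⟩ := ci_surj hν (Pi.single i 1)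
    obtain ⟨n, hn⟩ := hF D
    refine ⟨n, ?_⟩
    rw [← hn]
    change _ = F (rv (ci ν D))
    rw [hD, rv_single]
  choose φ hφ using h1
  refine ⟨φ, fun w => ?_⟩
  rw [LinearMap.pi_apply_eq_sum_univ F w, dotProduct]
  refine Finset.sum_congr rfl fun i _ => ?_
  have h2 : (fun j => if i = j then (1 : ℝ) else 0) = Pi.single i 1 := by
    funext j
    by_cases hij : i = j
    · subst hij
      simp
    · rw [if_neg hij, Pi.single_eq_of_ne (fun h => hij h.symm)]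
  rw [h2, hφ i, smul_eq_mul]
  change w i * (φ i : ℝ) = (φ i : ℝ) * w i
  ring

theorem vp_int (hν : NumR ν) {F : (Fin r → ℝ) →ₗ[ℝ] ℝ} (hF : ∀ D : Cart X, ∃ n : ℤ, F (cR ν D) = n)
    (hp : F p = 0) (hw : w ∈ Vp p) : F w = 0 := by
  obtain ⟨φ, hφ⟩ := int_fun hν hF
  rw [hφ] at hp ⊢
  exact mem_vp.1 hw φ hp

theorem vp_tri (hr : RR T l c) (hν : NumR ν) (hT : ∀ U V W, TR (cR ν U) (cR ν V) (cR ν W) = T U V W)
    (hA : ∃ A : Cart X, Ample A) (hp : TR p (cR ν U) (cR ν V) = 0) (hw : w ∈ Vp p) :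
    TR w (cR ν U) (cR ν V) = 0 := by
  have h1 := vp_int (p := p) (w := w) hν (F := (LinearMap.applyₗ (cR ν V)).comp (TR.flip (cR ν U))) (fun D => by
    obtain ⟨n, hn⟩ := Pool.Agent.H24.VP.t_int hr hA D U V
    refine ⟨n, ?_⟩
    rw [← hn, ← hT]
    rfl) hp hw
  exact h1

/-- **`T(p,.,S)` vanishes on `Vp p`** -/
theorem bgd1 [CharZero k] [IsAlgClosed k] [T0Space X.P] (h : Hyp X) (hr : RR T l c) (hν : NumR ν)
    (hT : ∀ U V W, TR (cR ν U) (cR ν V) (cR ν W) = T U V W)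
    (htr : Algebra.trdeg k (X.kap z) = 2) (hS : SPr X z S) (hA : Ample A) (hp : p ∈ closure (CC ν))
    (h1 : 0 < TR p p (cR ν A)) (hz : ∀ w ∈ Vp p, TR p p w = 0) (hzS : TR p p (cR ν S) = 0) (hw : w ∈ Vp p) :
    TR p w (cR ν S) = 0 := by
  have hMp := ms_nef h hr hν hT htr hS hp
  have hppp : TR p p p = 0 := hz p (self_vp p)
  have hpos : 0 ≤ TR p (cR ν A) (cR ν S) := by
    obtain ⟨m, hm, hH, hb⟩ := exists_bpf h.var hA
    have h1 := hMp.eff _ (Pool.Agent.H20.TQ.bpf_res h hb z)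
    have h2 : cR ν (A ^ m) = (m : ℝ) • cR ν A := by
      change rv (ci ν (A ^ m)) = _
      rw [ci_pow, rv_smul, Int.cast_natCast]
    rw [h2, map_smul, LinearMap.smul_apply, smul_eq_mul] at h1
    have h3 : (0 : ℝ) < m := by exact_mod_cast hm
    exact nonneg_of_mul_nonneg_right h1 h3
  rcases hpos.eq_or_lt with h0 | h0
  · exact ks_zero hν (ms_zero h hr hν hT htr hS hA hMp h0.symm) w
  · have h2 := hd_z h hr hν hT hA hp h1 hzS
    rcases h2.eq_or_lt with h3 | h3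
    · -- `S` is a multiple of `p` modulo the kernel of `T(p,.,.)`
      obtain ⟨x, hx⟩ : ∃ x, x = TR p (cR ν S) (cR ν A) / TR p p (cR ν A) := ⟨_, rfl⟩
      have e1 : TR p (cR ν S - x • p) (cR ν A) = 0 := by
        simp only [map_sub, map_smul, LinearMap.sub_apply, LinearMap.smul_apply, smul_eq_mul]
        rw [hx, div_mul_cancel₀ _ h1.ne', sub_self]
      have e2 : TR p (cR ν S - x • p) (cR ν S - x • p) = 0 := by
        simp only [map_sub, map_smul, LinearMap.sub_apply, LinearMap.smul_apply, smul_eq_mul]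
        rw [h3, hzS, tr_s23 hr hν hT p (cR ν S) p, hzS, hppp]
        ring
      have e3 := hd_eq h hr hν hT hp (paa_pos h hr hν hT hA hp h1) e1 e2 w
      simp only [map_sub, map_smul, LinearMap.sub_apply, LinearMap.smul_apply, smul_eq_mul] at e3
      rw [hz w hw, mul_zero, sub_zero, tr_s23 hr hν hT] at e3
      exact e3
    · obtain ⟨τ, δ, a0, hτ, hδ, -⟩ := th_dis h hr hν hT htr hS hMp h0 hzS h3
      have e1 : rv δ ⬝ᵥ p = 0 := by
        have h4 := hδ p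
        rw [hzS] at h4
        rcases mul_eq_zero.1 h4.symm with h5 | h5
        · exact absurd h5 hτ.ne'
        · exact h5
      rw [hδ, mem_vp.1 hw δ e1, mul_zero]

/-- **`T(.,.,S)` vanishes on `Vp p`** -/
theorem bgd2 [CharZero k] [IsAlgClosed k] [T0Space X.P] (h : Hyp X) (hr : RR T l c) (hν : NumR ν)
    (hT : ∀ U V W, TR (cR ν U) (cR ν V) (cR ν W) = T U V W)
    (htr : Algebra.trdeg k (X.kap z) = 2) (hS : SPr X z S) (hA : Ample A) (hp : p ∈ closure (CC ν))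
    (h1 : 0 < TR p p (cR ν A)) (hz : ∀ w ∈ Vp p, TR p p w = 0) (hzS : TR p p (cR ν S) = 0) (hw : w ∈ Vp p)
    (hw' : w' ∈ Vp p) : TR w w' (cR ν S) = 0 := by
  obtain ⟨a, d, h2, rfl⟩ := vp_sum p hw'
  simp only [map_sum, map_smul, LinearMap.sum_apply, LinearMap.smul_apply, smul_eq_mul]
  refine Finset.sum_eq_zero fun j _ => ?_
  obtain ⟨D, hD⟩ := ci_surj hν (d j)
  have h3 : rv (d j) = cR ν D := by
    change _ = rv (ci ν D)
    rw [hD]
  rw [h3, vp_tri hr hν hT ⟨A, hA⟩ (bgd1 h hr hν hT htr hS hA hp h1 hz hzS (by rw [← h3]; exact h2 j)) hw, mul_zero]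

end Pool.Agent.H20.RT
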