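import Pool.Agent.H20.TP.Poly
import Pool.Agent.H20.RT.Vp

/-!
# [H20 RT Big] THEOREM R (MP_e49dc9_ag): the big classes

`vp_big`: `p` nef with `T(p,p,p) > 0`: all `y ∈ Vp p` near `p` are nef (from `local_poly`: the threshold `s` in the direction of an ample class
is `- φ(y) / φ(A)` near `p` for one of finitely many integral functionals `φ` with `φ(p) = 0`, and these kill `Vp p`).
-/

set_option autoImplicit false

namespace Pool.Agent.H20.RT

open Pool.Agent.H54.RV Pool.Agent.H83.TU Pool.Agent.H83.TK Pool.Agent.H20.TD Pool.Agent.H20.TP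
open Pool.Agent.H24.VP (RR chS)

variable {k K : Type} [Field k] [Field K] [Algebra k K] {X : Mod k K} {r : ℕ}
  {ν : Cart X →* Multiplicative (Fin r → ℤ)} {T : Cart X → Cart X → Cart X → ℝ} {l : Cart X → ℝ} {c : ℝ} {TR : Tri3 r}
  {p : Fin r → ℝ}

theorem vp_big [CharZero k] [IsAlgClosed k] [T0Space X.P] (h : Hyp X) (hr : RR T l c) (hν : NumR ν)
    (hT : ∀ U V W, TR (cR ν U) (cR ν V) (cR ν W) = T U V W)
    (hp : p ∈ closure (CC ν)) (h3 : 0 < TR p p p) :
    ∃ e : ℝ, 0 < e ∧ ∀ y ∈ Vp p, ‖y - p‖ < e → y ∈ closure (CC ν) := by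
  classical
  obtain ⟨A, hA⟩ := h.amp
  obtain ⟨L, -, hd⟩ := cc_dir h.var hν (l := fun D => T D A A) (fun U V => hr.tri.add U V A A)
    (fun B hB => Pool.Agent.H24.VP.pos_amp h hr hB hA hA) hA
  obtain ⟨s, hs⟩ : ∃ s, s = thf (CC ν) (rv (ci ν A)) := ⟨_, rfl⟩
  have hsc : Continuous s := by
    rw [hs]
    exact sub_cont hd.sub
  by_cases hpC : p ∈ CC ν
  · obtain ⟨e, he, h4⟩ := Metric.isOpen_iff.1 (cc_open (ν := ν)) _ hpC
    refine ⟨e, he, fun y _ hy => subset_closure (h4 ?_)⟩
    rwa [Metric.mem_ball, dist_eq_norm]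
  · have hsp : s p = 0 := by
      refine le_antisymm ?_ ?_
      · rw [hs, hd.le_iff, zero_smul, add_zero]
        exact hp
      · by_contra h4
        push Not at h4
        rw [hs, hd.lt_iff, zero_smul, add_zero] at h4
        exact hpC h4
    obtain ⟨η, F, hη, hF, hFpos, hloc⟩ := local_poly h hr hν hT hA hp h3
    have hdot : ∀ φ : Fin r → ℤ, Continuous fun y : Fin r → ℝ => rv φ ⬝ᵥ y := fun φ => by
      unfold dotProduct
      fun_prop
    have e1 : ∀ᶠ y in nhds p, ‖(y + s y • rv (ci ν A)) - p‖ < η := by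
      have h5 : Continuous fun y : Fin r → ℝ => ‖(y + s y • rv (ci ν A)) - p‖ := by fun_prop
      refine h5.continuousAt.eventually_lt continuousAt_const ?_
      rw [hsp, zero_smul, add_zero, sub_self, norm_zero]
      exact hη
    have e2 : ∀ᶠ y in nhds p, ∀ φ ∈ F, rv φ ⬝ᵥ (y + s y • rv (ci ν A)) = 0 → rv φ ⬝ᵥ p = 0 := by
      rw [Filter.eventually_all_finite hF]
      intro φ _
      by_cases h6 : rv φ ⬝ᵥ p = 0
      · exact Filter.Eventually.of_forall fun y _ => h6
      · have h5 : Continuous fun y : Fin r → ℝ => rv φ ⬝ᵥ (y + s y • rv (ci ν A)) :=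
          (hdot φ).comp (by fun_prop)
        have h7 := h5.continuousAt (x := p) |>.eventually_ne (y := (0 : ℝ)) (by
          rw [hsp, zero_smul, add_zero]
          exact h6)
        filter_upwards [h7] with y hy h8
        exact absurd h8 hy
    obtain ⟨e, he, h4⟩ := Metric.eventually_nhds_iff_ball.1 (e1.and e2)
    refine ⟨e, he, fun y hy hyp => ?_⟩
    obtain ⟨h5, h6⟩ := h4 y (by rwa [Metric.mem_ball, dist_eq_norm])
    have h7 : y + s y • rv (ci ν A) ∈ closure (CC ν) := by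
      rw [← hd.le_iff, ← hs]
    rcases hloc _ h7 h5 with h8 | ⟨φ, hφ, h8⟩
    · rw [← hd.lt_iff, ← hs] at h8
      exact absurd h8 (lt_irrefl _)
    · have h9 := mem_vp.1 hy φ (h6 φ hφ h8)
      rw [dotProduct_add, h9, zero_add, dotProduct_smul, smul_eq_mul] at h8
      rcases mul_eq_zero.1 h8 with h10 | h10
      · rw [h10, zero_smul, add_zero] at h7
        exact h7
      · exact absurd h10 (hFpos φ hφ).ne'

end Pool.Agent.H20.RT
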