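import Pool.Agent.H20.TP.Poly
import Pool.Agent.H24.VP.Hda2

/-!
# [H20 RT Hdr] THEOREM R (MP_e49dc9_ag): the index theorem for real classes

`p, q, s` nef real classes, `v, w, L` arbitrary real classes, `A` ample.
* `tr_nn`: `T(p,q,s) ≥ 0`.  `tr_cc`: `T(p,q,a) > 0` if `T(p,q,A) > 0` and `a` is in the open cone.
* `hi_real`: `T(p,L,L) > 0 ⟹ T(p,L,L) T(p,v,v) ≤ T(p,L,v) ^ 2`.
* `paa_pos`: `T(p,p,A) > 0 ⟹ T(p,A,A) > 0`.
* `hd_z`: `T(p,p,A) > 0`, `T(p,p,v) = 0 ⟹ T(p,v,v) ≤ 0`.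
* `hd_eq`: `T(p,A,A) > 0`, `T(p,v,A) = 0`, `T(p,v,v) = 0 ⟹ T(p,v,w) = 0`.
-/

set_option autoImplicit false

namespace Pool.Agent.H20.RT

open Pool.Agent.H54.RV Pool.Agent.H83.TU Pool.Agent.H83.TK Pool.Agent.H20.TD Pool.Agent.H20.TP
open Pool.Agent.H24.VP (RR chS)

variable {k K : Type} [Field k] [Field K] [Algebra k K] {X : Mod k K} {r : ℕ}
  {ν : Cart X →* Multiplicative (Fin r → ℤ)} {T : Cart X → Cart X → Cart X → ℝ} {l : Cart X → ℝ} {c : ℝ} {TR : Tri3 r}
  {p q s v w L : Fin r → ℝ} {A : Cart X}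

theorem cont3 (TR : Tri3 r) :
    Continuous fun x : (Fin r → ℝ) × (Fin r → ℝ) × (Fin r → ℝ) => TR x.1 x.2.1 x.2.2 := by
  classical
  let b := Pi.basisFun ℝ (Fin r)
  have key : ∀ u v w : Fin r → ℝ, TR u v w = ∑ i, ∑ j, ∑ m, u i * (v j * (w m * TR (b i) (b j) (b m))) := by
    intro u v w
    have hu : u = ∑ i, u i • b i := by
      have := b.sum_repr u
      simpa [b] using this.symm
    have hv : v = ∑ i, v i • b i := by
      have := b.sum_repr v
      simpa [b] using this.symm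
    have hw : w = ∑ i, w i • b i := by
      have := b.sum_repr w
      simpa [b] using this.symm
    have h1 : TR u v w = TR (∑ i, u i • b i) (∑ i, v i • b i) (∑ i, w i • b i) := by rw [← hu, ← hv, ← hw]
    rw [h1]
    simp only [map_sum, map_smul, LinearMap.sum_apply, LinearMap.smul_apply, smul_eq_mul, Finset.mul_sum]
    rw [Finset.sum_comm' (t' := Finset.univ) (s' := fun _ => Finset.univ) (by simp)]
    rw [Finset.sum_congr rfl fun i _ => Finset.sum_comm]
    rw [Finset.sum_comm]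
    refine Finset.sum_congr rfl fun i _ => ?_
    refine Finset.sum_congr rfl fun j _ => ?_
    refine Finset.sum_congr rfl fun m _ => ?_
    ring
  have : (fun x : (Fin r → ℝ) × (Fin r → ℝ) × (Fin r → ℝ) => TR x.1 x.2.1 x.2.2) =
      fun x => ∑ i, ∑ j, ∑ m, x.1 i * (x.2.1 j * (x.2.2 m * TR (b i) (b j) (b m))) := funext fun x => key _ _ _
  rw [this]
  fun_prop

theorem cont3' (TR : Tri3 r) {f g e : (Fin r → ℝ) → (Fin r → ℝ)} (hf : Continuous f) (hg : Continuous g)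
    (he : Continuous e) : Continuous fun x => TR (f x) (g x) (e x) :=
  (cont3 TR).comp (hf.prodMk (hg.prodMk he))

theorem tr_nn [CharZero k] [T0Space X.P] (h : Hyp X) (hr : RR T l c) (hν : NumR ν)
    (hT : ∀ U V W, TR (cR ν U) (cR ν V) (cR ν W) = T U V W)
    (hp : p ∈ closure (CC ν)) (hq : q ∈ closure (CC ν)) (hs : s ∈ closure (CC ν)) : 0 ≤ TR p q s := by
  rw [← cl_eq h.var hν] at hp hq hs
  have h1 : ∀ x ∈ (AmpR ν) ×ˢ (AmpR ν) ×ˢ (AmpR ν), 0 ≤ TR x.1 x.2.1 x.2.2 := by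
    rintro ⟨x, y, z⟩ ⟨⟨m₁, c₁, D₁, a1, a2, rfl⟩, ⟨m₂, c₂, D₂, b1, b2, rfl⟩, ⟨m₃, c₃, D₃, d1, d2, rfl⟩⟩
    simp only [map_sum, map_smul, LinearMap.sum_apply, LinearMap.smul_apply, smul_eq_mul]
    refine Finset.sum_nonneg fun i _ => mul_nonneg (d1 i).le (Finset.sum_nonneg fun j _ => mul_nonneg (b1 j).le
      (Finset.sum_nonneg fun m _ => mul_nonneg (a1 m).le ?_))
    have := hT (D₁ m) (D₂ j) (D₃ i)
    rw [this]
    exact (Pool.Agent.H24.VP.pos_amp h hr (a2 m) (b2 j) (d2 i)).le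
  have h2 : (p, q, s) ∈ closure ((AmpR ν) ×ˢ (AmpR ν) ×ˢ (AmpR ν)) := by
    rw [closure_prod_eq, closure_prod_eq]
    exact ⟨hp, hq, hs⟩
  exact closure_minimal h1 (isClosed_le continuous_const (cont3 TR)) h2

theorem tr_cc [CharZero k] [T0Space X.P] (h : Hyp X) (hr : RR T l c) (hν : NumR ν)
    (hT : ∀ U V W, TR (cR ν U) (cR ν V) (cR ν W) = T U V W)
    (hp : p ∈ closure (CC ν)) (hq : q ∈ closure (CC ν)) (h1 : 0 < TR p q v) {a : Fin r → ℝ} (ha : a ∈ CC ν) :
    0 < TR p q a := by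
  obtain ⟨ε, hε, h2⟩ := (oc_cc h.var hν).sub_small ha v
  have h3 := tr_nn h hr hν hT hp hq (subset_closure (h2 (-ε) (by rw [abs_neg, abs_of_pos hε])))
  rw [map_add, map_smul, smul_eq_mul] at h3
  have h4 := mul_pos hε h1
  linarith

/-- **the index inequality for real classes** -/
theorem hi_real [CharZero k] [T0Space X.P] (h : Hyp X) (hr : RR T l c) (hν : NumR ν)
    (hT : ∀ U V W, TR (cR ν U) (cR ν V) (cR ν W) = T U V W)
    (hp : p ∈ closure (CC ν)) (hL : 0 < TR p L L) : TR p L L * TR p v v ≤ TR p L v ^ 2 := by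
  by_contra hcon
  push Not at hcon
  -- a rational class `q` in the open cone
  obtain ⟨q, hqC, hq1, hq2⟩ : ∃ q : Fin r → ℚ, (fun i => ((q i : ℚ) : ℝ)) ∈ CC ν ∧
      0 < TR (fun i => ((q i : ℚ) : ℝ)) L L ∧
      TR (fun i => ((q i : ℚ) : ℝ)) L v ^ 2 < TR (fun i => ((q i : ℚ) : ℝ)) L L * TR (fun i => ((q i : ℚ) : ℝ)) v v := by
    obtain ⟨O, hO⟩ : ∃ O : Set (Fin r → ℝ), O = {x | 0 < TR x L L ∧ TR x L v ^ 2 < TR x L L * TR x v v} := ⟨_, rfl⟩
    have hOo : IsOpen O := by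
      rw [hO]
      refine (isOpen_lt continuous_const (cont3' TR continuous_id continuous_const continuous_const)).inter
        (isOpen_lt ((cont3' TR continuous_id continuous_const continuous_const).pow 2)
          ((cont3' TR continuous_id continuous_const continuous_const).mul
            (cont3' TR continuous_id continuous_const continuous_const)))
    have hpO : p ∈ O := by
      rw [hO]
      exact ⟨hL, hcon⟩
    obtain ⟨x, hx1, hx2⟩ := mem_closure_iff.1 hp O hOo hpO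
    obtain ⟨q, hq⟩ := dense_rat.exists_mem_open (hOo.inter cc_open) ⟨x, hx1, hx2⟩
    rw [hO] at hq
    exact ⟨q, hq.2, hq.1.1, hq.1.2⟩
  obtain ⟨m₁, W, hm₁, hW⟩ := exists_den q
  obtain ⟨W', hW'⟩ := ci_surj hν W
  have hm₁' : (0 : ℝ) < m₁ := by exact_mod_cast hm₁
  have hWa : Ample W' := cc_ample (by rw [hW', hW]; exact cc_smul hm₁' hqC)
  have hWc : cR ν W' = (m₁ : ℝ) • fun i => ((q i : ℚ) : ℝ) := by
    change rv (ci ν W') = _
    rw [hW', hW]
  -- the form of `W'`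
  obtain ⟨B, hB⟩ : ∃ B : (Fin r → ℝ) → (Fin r → ℝ) → ℝ, ∀ a b, B a b = TR (cR ν W') a b := ⟨_, fun _ _ => rfl⟩
  have hB1 : 0 < B L L := by
    rw [hB, hWc, map_smul, LinearMap.smul_apply, LinearMap.smul_apply, smul_eq_mul]
    exact mul_pos hm₁' hq1
  have hB2 : B L v ^ 2 < B L L * B v v := by
    simp only [hB, hWc, map_smul, LinearMap.smul_apply, smul_eq_mul]
    have : (0 : ℝ) < m₁ ^ 2 := by positivity
    nlinarith [mul_lt_mul_of_pos_left hq2 this]
  have hBc : ∀ {f g : (Fin r → ℝ) → (Fin r → ℝ)}, Continuous f → Continuous g → Continuous fun x => B (f x) (g x) := by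
    intro f g hf hg
    simp only [hB]
    exact cont3' TR continuous_const hf hg
  -- `L` rational
  obtain ⟨a, ha1, ha2⟩ : ∃ a : Fin r → ℚ, 0 < B (fun i => ((a i : ℚ) : ℝ)) (fun i => ((a i : ℚ) : ℝ)) ∧
      B (fun i => ((a i : ℚ) : ℝ)) v ^ 2 < B (fun i => ((a i : ℚ) : ℝ)) (fun i => ((a i : ℚ) : ℝ)) * B v v := by
    have hOo : IsOpen {x : Fin r → ℝ | 0 < B x x ∧ B x v ^ 2 < B x x * B v v} :=
      (isOpen_lt continuous_const (hBc continuous_id continuous_id)).inter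
        (isOpen_lt ((hBc continuous_id continuous_const).pow 2)
          ((hBc continuous_id continuous_id).mul continuous_const))
    exact dense_rat.exists_mem_open hOo ⟨L, hB1, hB2⟩
  obtain ⟨b, hb⟩ : ∃ b : Fin r → ℚ, B (fun i => ((a i : ℚ) : ℝ)) (fun i => ((b i : ℚ) : ℝ)) ^ 2 <
      B (fun i => ((a i : ℚ) : ℝ)) (fun i => ((a i : ℚ) : ℝ)) * B (fun i => ((b i : ℚ) : ℝ)) (fun i => ((b i : ℚ) : ℝ)) := by
    have hOo : IsOpen {x : Fin r → ℝ | B (fun i => ((a i : ℚ) : ℝ)) x ^ 2 <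
        B (fun i => ((a i : ℚ) : ℝ)) (fun i => ((a i : ℚ) : ℝ)) * B x x} :=
      isOpen_lt ((hBc continuous_const continuous_id).pow 2) (continuous_const.mul (hBc continuous_id continuous_id))
    exact dense_rat.exists_mem_open hOo ⟨v, ha2⟩
  obtain ⟨m₂, P, hm₂, hP⟩ := exists_den a
  obtain ⟨P', hP'⟩ := ci_surj hν P
  obtain ⟨m₃, Q, hm₃, hQ⟩ := exists_den b
  obtain ⟨Q', hQ'⟩ := ci_surj hν Q
  have hm₂' : (0 : ℝ) < m₂ := by exact_mod_cast hm₂
  have hm₃' : (0 : ℝ) < m₃ := by exact_mod_cast hm₃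
  have hPc : cR ν P' = (m₂ : ℝ) • fun i => ((a i : ℚ) : ℝ) := by
    change rv (ci ν P') = _
    rw [hP', hP]
  have hQc : cR ν Q' = (m₃ : ℝ) • fun i => ((b i : ℚ) : ℝ) := by
    change rv (ci ν Q') = _
    rw [hQ', hQ]
  have e1 : T P' P' W' = m₂ ^ 2 * B (fun i => ((a i : ℚ) : ℝ)) (fun i => ((a i : ℚ) : ℝ)) := by
    rw [hr.tri.s23, hr.tri.s12, ← hT, hB, hPc]
    simp only [map_smul, LinearMap.smul_apply, smul_eq_mul]
    ring
  have e2 : T Q' Q' W' = m₃ ^ 2 * B (fun i => ((b i : ℚ) : ℝ)) (fun i => ((b i : ℚ) : ℝ)) := by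
    rw [hr.tri.s23, hr.tri.s12, ← hT, hB, hQc]
    simp only [map_smul, LinearMap.smul_apply, smul_eq_mul]
    ring
  have e3 : T P' Q' W' = m₂ * m₃ * B (fun i => ((a i : ℚ) : ℝ)) (fun i => ((b i : ℚ) : ℝ)) := by
    rw [hr.tri.s23, hr.tri.s12, ← hT, hB, hPc, hQc]
    simp only [map_smul, LinearMap.smul_apply, smul_eq_mul]
    ring
  have h1 := Pool.Agent.H24.VP.hdg_L hr.tri (Pool.Agent.H24.VP.t_int hr h.amp) (Pool.Agent.H24.VP.pos_amp h hr hWa hWa hWa)
    (fun E hE => Pool.Agent.H24.VP.hdg_amp h hr hWa E hE) P' Q' (by rw [e1]; positivity)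
  rw [e1, e2, e3] at h1
  have h2 : 0 < (m₂ : ℝ) ^ 2 * m₃ ^ 2 := by positivity
  nlinarith [mul_lt_mul_of_pos_left hb h2]

theorem paa_pos [CharZero k] [IsAlgClosed k] [T0Space X.P] (h : Hyp X) (hr : RR T l c) (hν : NumR ν)
    (hT : ∀ U V W, TR (cR ν U) (cR ν V) (cR ν W) = T U V W)
    (hA : Ample A) (hp : p ∈ closure (CC ν)) (h1 : 0 < TR p p (cR ν A)) : 0 < TR p (cR ν A) (cR ν A) := by
  have hAC : cR ν A ∈ CC ν := cc_amp h.var hν hA
  obtain ⟨ε, hε, h2⟩ := (oc_cc h.var hν).sub_small hAC p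
  have h3 := tr_nn h hr hν hT hp (subset_closure (h2 (-ε) (by rw [abs_neg, abs_of_pos hε]))) (subset_closure hAC)
  rw [map_add, map_smul, LinearMap.add_apply, LinearMap.smul_apply, smul_eq_mul] at h3
  have h4 := mul_pos hε h1
  linarith

/-- **the index theorem on the orthogonal complement of `p . p`** -/
theorem hd_z [CharZero k] [IsAlgClosed k] [T0Space X.P] (h : Hyp X) (hr : RR T l c) (hν : NumR ν)
    (hT : ∀ U V W, TR (cR ν U) (cR ν V) (cR ν W) = T U V W)
    (hA : Ample A) (hp : p ∈ closure (CC ν)) (h1 : 0 < TR p p (cR ν A)) (h2 : TR p p v = 0) : TR p v v ≤ 0 := by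
  have h3 := tr_nn h hr hν hT hp hp hp
  have h4 := paa_pos h hr hν hT hA hp h1
  obtain ⟨y, hy⟩ : ∃ y, y = TR p (cR ν A) v ^ 2 := ⟨_, rfl⟩
  have hy0 : 0 ≤ y := by rw [hy]; positivity
  by_contra hcon
  push Not at hcon
  have key : ∀ t : ℝ, 0 < t → 2 * TR p p (cR ν A) * TR p v v ≤ t * y := by
    intro t ht
    have e1 : TR p (p + t • cR ν A) (p + t • cR ν A) =
        TR p p p + 2 * t * TR p p (cR ν A) + t ^ 2 * TR p (cR ν A) (cR ν A) := by
      simp only [map_add, map_smul, LinearMap.add_apply, LinearMap.smul_apply, smul_eq_mul]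
      rw [tr_s23 hr hν hT p (cR ν A) p]
      ring
    have e2 : TR p (p + t • cR ν A) v = t * TR p (cR ν A) v := by
      simp only [map_add, map_smul, LinearMap.add_apply, LinearMap.smul_apply, smul_eq_mul]
      rw [h2, zero_add]
    have h5 := hi_real h hr hν hT hp (L := p + t • cR ν A) (v := v) (by
      rw [e1]
      have := mul_pos ht h1
      have := mul_pos (pow_pos ht 2) h4
      linarith)
    rw [e1, e2, mul_pow, ← hy] at h5
    have h6 : 2 * t * TR p p (cR ν A) * TR p v v ≤ t ^ 2 * y := by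
      have h7 := mul_nonneg h3 hcon.le
      have h8 := mul_nonneg (mul_nonneg (sq_nonneg t) h4.le) hcon.le
      nlinarith
    have h7 : t * (2 * TR p p (cR ν A) * TR p v v) ≤ t * (t * y) := by nlinarith
    exact le_of_mul_le_mul_left h7 ht
  have h5 : 0 < 2 * TR p p (cR ν A) * TR p v v := by positivity
  have h6 := key (TR p p (cR ν A) * TR p v v / (y + 1)) (by positivity)
  have h7 : TR p p (cR ν A) * TR p v v / (y + 1) * y ≤ TR p p (cR ν A) * TR p v v := by
    rw [div_mul_eq_mul_div, div_le_iff₀ (by linarith)]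
    nlinarith
  linarith

/-- the case of equality -/
theorem hd_eq [CharZero k] [T0Space X.P] (h : Hyp X) (hr : RR T l c) (hν : NumR ν)
    (hT : ∀ U V W, TR (cR ν U) (cR ν V) (cR ν W) = T U V W)
    (hp : p ∈ closure (CC ν)) (h1 : 0 < TR p L L) (h2 : TR p v L = 0) (h3 : TR p v v = 0) (w : Fin r → ℝ) :
    TR p v w = 0 := by
  -- `w` orthogonal to `L`
  have key : ∀ w : Fin r → ℝ, TR p w L = 0 → TR p v w = 0 := by
    intro w hw
    have h4 : ∀ t : ℝ, 2 * t * TR p v w + TR p w w ≤ 0 := by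
      intro t
      have h5 := hi_real h hr hν hT hp (L := L) (v := t • v + w) h1
      have e1 : TR p L (t • v + w) = 0 := by
        rw [tr_s23 hr hν hT]
        simp only [map_add, map_smul, LinearMap.add_apply, LinearMap.smul_apply, smul_eq_mul]
        rw [h2, hw]
        ring
      have e2 : TR p (t • v + w) (t • v + w) = 2 * t * TR p v w + TR p w w := by
        simp only [map_add, map_smul, LinearMap.add_apply, LinearMap.smul_apply, smul_eq_mul]
        rw [h3, tr_s23 hr hν hT p w v]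
        ring
      rw [e1, e2] at h5
      have h6 : TR p L L * (2 * t * TR p v w + TR p w w) ≤ 0 := by
        refine h5.trans ?_
        norm_num
      by_contra h7
      push Not at h7
      have := mul_pos h1 h7
      linarith
    by_contra hne
    have h5 := h4 ((1 - TR p w w) / (2 * TR p v w))
    have h6 : 2 * ((1 - TR p w w) / (2 * TR p v w)) * TR p v w = 1 - TR p w w := by field_simp
    rw [h6] at h5
    linarith
  have h4 := key (w - (TR p w L / TR p L L) • L) (by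
    simp only [map_sub, map_smul, LinearMap.sub_apply, LinearMap.smul_apply, smul_eq_mul]
    rw [div_mul_cancel₀ _ h1.ne', sub_self])
  simp only [map_sub, map_smul, smul_eq_mul] at h4
  rw [h2, mul_zero, sub_zero] at h4
  exact h4

end Pool.Agent.H20.RT
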