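import Pool.Agent.H20.RT.Bgd
import Pool.Agent.H24.VP.PosB

/-!
# [H20 RT Iso] THEOREM R (MP_e49dc9_ag), step (2): `T = 0` on `Vp p`

`p` nef, `T(p,p,A) > 0`, `T(p,p,.) = 0` on `Vp p`.
* `tr_eff`: `T(p,p,W) ≥ 0` for effective `W`.
* `bgd_eff`: `W` effective with `T(p,p,W) = 0`: `T(w,w',W) = 0` for `w, w' ∈ Vp p`.
* `bgd_srf`: the surfaces in an effective `W` with `T(p,p,W) = 0` have `T(p,p,S) = 0`.
* `iso_of`: if there are effective divisors with classes in `Vp p` within a constant of `x p`, `x` large, then `T = 0` on `Vp p`.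
-/

set_option autoImplicit false

namespace Pool.Agent.H20.RT

open Pool.Agent.H54.RV Pool.Agent.H83.TU Pool.Agent.H83.TK Pool.Agent.H20.TD Pool.Agent.H20.TP
open Pool.Agent.H24.VP (RR chS)

variable {k K : Type} [Field k] [Field K] [Algebra k K] {X : Mod k K} {r : ℕ}
  {ν : Cart X →* Multiplicative (Fin r → ℤ)} {T : Cart X → Cart X → Cart X → ℝ} {l : Cart X → ℝ} {c : ℝ} {TR : Tri3 r}
  {z : X.P} {p w w' w'' : Fin r → ℝ} {A S U V W : Cart X}

theorem cR_mul (U V : Cart X) : cR ν (U * V) = cR ν U + cR ν V := by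
  change rv (ci ν (U * V)) = _
  rw [ci_mul, rv_add]

theorem cR_one : cR ν (1 : Cart X) = 0 := by
  change rv (ci ν 1) = _
  rw [ci_one]
  funext i
  simp [rv]

/-- a trivial divisor -/
theorem tr_triv [CharZero k] (h : Hyp X) (hr : RR T l c) (hν : NumR ν)
    (hT : ∀ U V W, TR (cR ν U) (cR ν V) (cR ν W) = T U V W) (hU : Effective U) (hU' : Effective U⁻¹)
    (v w : Fin r → ℝ) : TR v w (cR ν U) = 0 := by
  have h1 : TR (cR ν U) = 0 := ext_uniq hν fun D => ext_uniq hν fun E => by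
    have h2 := hT U D E
    rw [Pool.Agent.H24.VP.triv_T h hr hU hU' D E] at h2
    exact h2
  rw [tr_s23 hr hν hT, tr_s12 hr hν hT, h1]
  rfl

theorem list_tr (L : List (PDiv X × Cart X)) (v w : Fin r → ℝ) :
    TR v w (cR ν (L.map Prod.snd).prod) = (L.map fun x => TR v w (cR ν x.2)).sum := by
  induction L with
  | nil => rw [List.map_nil, List.prod_nil, List.map_nil, List.sum_nil, cR_one, map_zero]
  | cons S L ih => rw [List.map_cons, List.prod_cons, List.map_cons, List.sum_cons, cR_mul, map_add, ih]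

theorem tr_srf [CharZero k] [IsAlgClosed k] [T0Space X.P] (h : Hyp X) (hr : RR T l c) (hν : NumR ν)
    (hT : ∀ U V W, TR (cR ν U) (cR ν V) (cR ν W) = T U V W)
    (hp : p ∈ closure (CC ν)) (P : PDiv X) (hS : SPr X P.η S) : 0 ≤ TR p p (cR ν S) :=
  (ms_nef h hr hν hT (trdeg_pdiv h P) hS hp).sq

theorem tr_eff [CharZero k] [IsAlgClosed k] [T0Space X.P] (h : Hyp X) (hr : RR T l c) (hν : NumR ν)
    (hT : ∀ U V W, TR (cR ν U) (cR ν V) (cR ν W) = T U V W)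
    (hp : p ∈ closure (CC ν)) (hW : Effective W) : 0 ≤ TR p p (cR ν W) := by
  obtain ⟨Ls, U, h1, h2, h3, h4⟩ := Pool.Agent.H24.VP.fac_eff h hr hW
  rw [h4, cR_mul, map_add, list_tr, tr_triv h hr hν hT h2 h3, add_zero]
  refine List.sum_nonneg fun x hx => ?_
  obtain ⟨y, hy, rfl⟩ := List.mem_map.1 hx
  exact tr_srf h hr hν hT hp y.1 (h1 y hy)

/-- **`T(.,.,W)` vanishes on `Vp p`** -/
theorem bgd_eff [CharZero k] [IsAlgClosed k] [T0Space X.P] (h : Hyp X) (hr : RR T l c) (hν : NumR ν)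
    (hT : ∀ U V W, TR (cR ν U) (cR ν V) (cR ν W) = T U V W) (hA : Ample A) (hp : p ∈ closure (CC ν))
    (h1 : 0 < TR p p (cR ν A)) (hz : ∀ w ∈ Vp p, TR p p w = 0) (hW : Effective W) (hzW : TR p p (cR ν W) = 0)
    (hw : w ∈ Vp p) (hw' : w' ∈ Vp p) : TR w w' (cR ν W) = 0 := by
  obtain ⟨Ls, U, h2, h3, h4, h5⟩ := Pool.Agent.H24.VP.fac_eff h hr hW
  rw [h5, cR_mul, map_add, list_tr, tr_triv h hr hν hT h3 h4, add_zero] at hzW ⊢
  have h6 : ∀ x ∈ Ls, TR p p (cR ν x.2) = 0 := by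
    intro x hx
    have h7 : ∀ y ∈ Ls.map (fun x => TR p p (cR ν x.2)), 0 ≤ y := by
      intro y hy
      obtain ⟨z, hz, rfl⟩ := List.mem_map.1 hy
      exact tr_srf h hr hν hT hp z.1 (h2 z hz)
    have h8 := List.single_le_sum h7 (TR p p (cR ν x.2)) (List.mem_map.2 ⟨x, hx, rfl⟩)
    rw [hzW] at h8
    exact le_antisymm h8 (tr_srf h hr hν hT hp x.1 (h2 x hx))
  refine List.sum_eq_zero fun y hy => ?_
  obtain ⟨x, hx, rfl⟩ := List.mem_map.1 hy
  exact bgd2 h hr hν hT (trdeg_pdiv h x.1) (h2 x hx) hA hp h1 hz (h6 x hx) hw hw'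

/-- the surfaces in an effective divisor -/
theorem bgd_srf [CharZero k] [IsAlgClosed k] [T0Space X.P] (h : Hyp X) (hr : RR T l c) (hν : NumR ν)
    (hT : ∀ U V W, TR (cR ν U) (cR ν V) (cR ν W) = T U V W) (hp : p ∈ closure (CC ν)) (P : PDiv X)
    (hS : SPr X P.η S) (hW : Effective (W * S⁻¹)) (hzW : TR p p (cR ν W) = 0) : TR p p (cR ν S) = 0 := by
  have h1 := tr_eff h hr hν hT hp hW
  have h2 := tr_srf h hr hν hT hp P hS
  have h3 : cR ν (W * S⁻¹) = cR ν W - cR ν S := by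
    change rv (ci ν (W * S⁻¹)) = _
    rw [ci_mul, ci_inv, rv_add, rv_neg, ← sub_eq_add_neg]
  rw [h3, map_sub, hzW] at h1
  linarith

/-- **`Vp p` is isotropic** -/
theorem iso_of [CharZero k] [IsAlgClosed k] [T0Space X.P] (h : Hyp X) (hr : RR T l c) (hν : NumR ν)
    (hT : ∀ U V W, TR (cR ν U) (cR ν V) (cR ν W) = T U V W) (hA : Ample A) (hp : p ∈ closure (CC ν))
    (h1 : 0 < TR p p (cR ν A)) (hz : ∀ w ∈ Vp p, TR p p w = 0) {C : ℝ}
    (hE : ∀ M : ℝ, ∃ (x : ℝ) (W : Cart X), M ≤ x ∧ Effective W ∧ cR ν W ∈ Vp p ∧ ‖cR ν W - x • p‖ ≤ C)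
    (hw : w ∈ Vp p) (hw' : w' ∈ Vp p) (hw'' : w'' ∈ Vp p) : TR w w' w'' = 0 := by
  have key : ∀ w ∈ Vp p, ∀ w' ∈ Vp p, TR w w' p = 0 := by
    intro w hw w' hw'
    obtain ⟨B, hB0, hB⟩ : ∃ B : ℝ, 0 ≤ B ∧ ∀ v, |TR w w' v| ≤ B * ‖v‖ :=
      ⟨‖LinearMap.toContinuousLinearMap (TR w w')‖, norm_nonneg _, fun v =>
        (LinearMap.toContinuousLinearMap (TR w w')).le_opNorm v⟩
    by_contra hne
    have h2 : 0 < |TR w w' p| := abs_pos.2 hne
    obtain ⟨x, W, hx, hW, hWV, hWn⟩ := hE (max 1 ((B * |C| + 1) / |TR w w' p|))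
    have hx1 : 1 ≤ x := (le_max_left _ _).trans hx
    have hx2 := (le_max_right _ _).trans hx
    rw [div_le_iff₀ h2] at hx2
    have h3 := bgd_eff h hr hν hT hA hp h1 hz hW (hz _ hWV) hw hw'
    have h4 := hB (cR ν W - x • p)
    rw [map_sub, map_smul, h3, zero_sub, smul_eq_mul, abs_neg, abs_mul, abs_of_nonneg (by linarith)] at h4
    have h5 : B * ‖cR ν W - x • p‖ ≤ B * |C| := mul_le_mul_of_nonneg_left (hWn.trans (le_abs_self C)) hB0
    linarith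
  obtain ⟨a, d, h2, rfl⟩ := vp_sum p hw'
  obtain ⟨b, e, h3, rfl⟩ := vp_sum p hw''
  simp only [map_sum, map_smul, LinearMap.sum_apply, LinearMap.smul_apply, smul_eq_mul]
  refine Finset.sum_eq_zero fun j _ => ?_
  rw [Finset.sum_eq_zero, mul_zero]
  intro i _
  obtain ⟨D, hD⟩ := ci_surj hν (d i)
  obtain ⟨E, hE'⟩ := ci_surj hν (e j)
  have e1 : rv (d i) = cR ν D := by
    change _ = rv (ci ν D)
    rw [hD]
  have e2 : rv (e j) = cR ν E := by
    change _ = rv (ci ν E)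
    rw [hE']
  have h4 := key _ (h2 i) _ (h3 j)
  rw [e1, e2, tr_s23 hr hν hT, tr_s12 hr hν hT] at h4
  rw [e1, e2, vp_tri hr hν hT ⟨A, hA⟩ h4 hw, mul_zero]

end Pool.Agent.H20.RT
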