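import Pool.Agent.H20.RT.Bgd

/-!
# [H20 RT Loc] THEOREM R (MP_e49dc9_ag), Part 2: LOC (3) for a nef class `p`

* `tpa_nn`: `0 ≤ T(p,A,S)`.
* `loc_neg`: `S` a prime divisor, `T(p,p,S) = 0`, `T(p,S,S) < 0 ⟹ T(p,w,S) = 0` for all `w ∈ Vp p`.
-/

set_option autoImplicit false

namespace Pool.Agent.H20.RT

open Pool.Agent.H54.RV Pool.Agent.H83.TU Pool.Agent.H83.TK Pool.Agent.H20.TD Pool.Agent.H20.TP
open Pool.Agent.H24.VP (RR chS)

variable {k K : Type} [Field k] [Field K] [Algebra k K] {X : Mod k K} {r : ℕ}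
  {ν : Cart X →* Multiplicative (Fin r → ℤ)} {T : Cart X → Cart X → Cart X → ℝ} {l : Cart X → ℝ} {c : ℝ} {TR : Tri3 r}
  {z : X.P} {p w : Fin r → ℝ} {A S : Cart X}

theorem tpa_nn [CharZero k] [IsAlgClosed k] [T0Space X.P] (h : Hyp X) (hr : RR T l c) (hν : NumR ν)
    (hT : ∀ U V W, TR (cR ν U) (cR ν V) (cR ν W) = T U V W)
    (htr : Algebra.trdeg k (X.kap z) = 2) (hS : SPr X z S) (hA : Ample A) (hp : p ∈ closure (CC ν)) :
    0 ≤ TR p (cR ν A) (cR ν S) := by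
  have hMp := ms_nef h hr hν hT htr hS hp
  obtain ⟨m, hm, hH, hb⟩ := exists_bpf h.var hA
  have h1 := hMp.eff _ (Pool.Agent.H20.TQ.bpf_res h hb z)
  have h2 : cR ν (A ^ m) = (m : ℝ) • cR ν A := by
    change rv (ci ν (A ^ m)) = _
    rw [ci_pow, rv_smul, Int.cast_natCast]
  rw [h2, map_smul, LinearMap.smul_apply, smul_eq_mul] at h1
  have h3 : (0 : ℝ) < m := by exact_mod_cast hm
  exact nonneg_of_mul_nonneg_right h1 h3

/-- **LOC (3)**: `T(p,.,S)` vanishes on `Vp p` if `T(p,p,S) = 0` and `T(p,S,S) < 0` -/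
theorem loc_neg [CharZero k] [IsAlgClosed k] [T0Space X.P] (h : Hyp X) (hr : RR T l c) (hν : NumR ν)
    (hT : ∀ U V W, TR (cR ν U) (cR ν V) (cR ν W) = T U V W)
    (htr : Algebra.trdeg k (X.kap z) = 2) (hS : SPr X z S) (hA : Ample A) (hp : p ∈ closure (CC ν))
    (hzS : TR p p (cR ν S) = 0) (hn : TR p (cR ν S) (cR ν S) < 0) (hw : w ∈ Vp p) :
    TR p w (cR ν S) = 0 := by
  have hMp := ms_nef h hr hν hT htr hS hp
  rcases (tpa_nn h hr hν hT htr hS hA hp).eq_or_lt with h0 | h0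
  · exact ks_zero hν (ms_zero h hr hν hT htr hS hA hMp h0.symm) w
  · obtain ⟨τ, δ, a0, hτ, hδ, -⟩ := th_dis h hr hν hT htr hS hMp h0 hzS hn
    have e1 : rv δ ⬝ᵥ p = 0 := by
      have h4 := hδ p
      rw [hzS] at h4
      rcases mul_eq_zero.1 h4.symm with h5 | h5
      · exact absurd h5 hτ.ne'
      · exact h5
    rw [hδ, mem_vp.1 hw δ e1, mul_zero]

end Pool.Agent.H20.RT
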