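import Pool.Agent.H20.RT.Hdr

/-!
# [H20 RT Pp] THEOREM R (MP_e49dc9_ag): positivity at nonzero nef classes

* `pq_zero`: `p, q` nef, `T(p,q,A) = 0 ⟹ T(p,q,.) = 0`.
* `pp_pos`: `p` nef, `T(p,p,.) ≠ 0 ⟹ T(p,p,A) > 0`.
-/

set_option autoImplicit false

namespace Pool.Agent.H20.RT

open Pool.Agent.H54.RV Pool.Agent.H83.TU Pool.Agent.H83.TK Pool.Agent.H20.TD Pool.Agent.H20.TP
open Pool.Agent.H24.VP (RR chS)

variable {k K : Type} [Field k] [Field K] [Algebra k K] {X : Mod k K} {r : ℕ}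
  {ν : Cart X →* Multiplicative (Fin r → ℤ)} {T : Cart X → Cart X → Cart X → ℝ} {l : Cart X → ℝ} {c : ℝ} {TR : Tri3 r}
  {p q v : Fin r → ℝ} {A : Cart X}

theorem pq_zero [CharZero k] [IsAlgClosed k] [T0Space X.P] (h : Hyp X) (hr : RR T l c) (hν : NumR ν)
    (hT : ∀ U V W, TR (cR ν U) (cR ν V) (cR ν W) = T U V W) (hA : Ample A)
    (hp : p ∈ closure (CC ν)) (hq : q ∈ closure (CC ν)) (h0 : TR p q (cR ν A) = 0) : TR p q = 0 := by
  have hAC : cR ν A ∈ CC ν := cc_amp h.var hν hA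
  have key : ∀ v : Fin r → ℝ, 0 ≤ TR p q v := by
    intro v
    obtain ⟨ε, hε, h2⟩ := (oc_cc h.var hν).sub_small hAC v
    have h3 := tr_nn h hr hν hT hp hq (subset_closure (h2 ε (by rw [abs_of_pos hε])))
    rw [map_add, map_smul, smul_eq_mul, h0, zero_add] at h3
    exact nonneg_of_mul_nonneg_right h3 hε
  refine LinearMap.ext fun v => ?_
  have h1 := key v
  have h2 := key (-v)
  rw [map_neg] at h2
  rw [LinearMap.zero_apply]
  linarith

theorem pp_pos [CharZero k] [IsAlgClosed k] [T0Space X.P] (h : Hyp X) (hr : RR T l c) (hν : NumR ν)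
    (hT : ∀ U V W, TR (cR ν U) (cR ν V) (cR ν W) = T U V W) (hA : Ample A)
    (hp : p ∈ closure (CC ν)) (hpp : TR p p ≠ 0) : 0 < TR p p (cR ν A) := by
  rcases (tr_nn h hr hν hT hp hp (subset_closure (cc_amp h.var hν hA))).eq_or_lt with h1 | h1
  · exact absurd (pq_zero h hr hν hT hA hp hp h1.symm) hpp
  · exact h1

end Pool.Agent.H20.RT
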