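import Pool.Agent.H89.RT.Hc
import Pool.Agent.H20.RT.Iso
import Pool.Agent.H20.RT.Pp

/-!
# [H20 RT Ray] THEOREM R (MP_e49dc9_ag), Part 2: `Vp p` is a line

* `srf_thr`: a curve lies on a surface.
* `dec_zero`: a class of degree `0` on all curves of `S` has `T(v,.,S) = 0`.
* `curves_zero`: `T(v,A,.) = 0`, `T(v,v,A) = 0`: `v` has degree `0` on all curves.
* `ray_of`: `0 < T(p,A,A)`, `T(p,.,A) = 0` on `Vp p`: `Vp p` is the line of `p`.
-/

set_option autoImplicit false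

namespace Pool.Agent.H20.RT

open Pool.Agent.H54.RV Pool.Agent.H83.TU Pool.Agent.H83.TK Pool.Agent.H20.TD Pool.Agent.H20.TP
open Pool.Agent.H24.VP (RR chS)

variable {k K : Type} [Field k] [Field K] [Algebra k K] {X : Mod k K} {r : ℕ}
  {ν : Cart X →* Multiplicative (Fin r → ℤ)} {T : Cart X → Cart X → Cart X → ℝ} {l : Cart X → ℝ} {c : ℝ} {TR : Tri3 r}
  {z x : X.P} {p v w : Fin r → ℝ} {A S : Cart X}

/-- a curve lies on a surface -/
theorem srf_thr [CharZero k] (h : Hyp X) (hx : Algebra.trdeg k (X.kap x) = 1) :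
    ∃ (P : PDiv X) (S : Cart X), P.η ⤳ x ∧ SPr X P.η S := by
  obtain ⟨g, hg⟩ := h.gen
  obtain ⟨a, ha, ha0, hau⟩ := ex_nonunit h.var hg (x := x) (by
    rw [hx, h.tr]
    norm_num)
  have := h.ufd x
  obtain ⟨π, hπirr, -⟩ := WfDvdMonoid.exists_irreducible_factor (a := (⟨a, ha⟩ : X.O x))
    (fun hh => hau ((un_iff ha).1 hh)) (fun hh => ha0 (congrArg Subtype.val hh))
  obtain ⟨q, hq⟩ := π
  obtain ⟨P, hPz, -, -⟩ := pdiv_of_prime h x q hq hπirr.prime
  obtain ⟨S, hS⟩ := pdiv_spr h P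
  exact ⟨P, S, hPz, hS⟩

/-- a class of degree `0` on all curves of a surface -/
theorem dec_zero [CharZero k] [IsAlgClosed k] [T0Space X.P] (h : Hyp X) (hr : RR T l c) (hν : NumR ν)
    (hT : ∀ U V W, TR (cR ν U) (cR ν V) (cR ν W) = T U V W)
    (htr : Algebra.trdeg k (X.kap z) = 2) (hS : SPr X z S)
    (hd : ∀ y, Cv z y → dR hν h.var y v = 0) (w : Fin r → ℝ) : TR v w (cR ν S) = 0 := by
  -- divisors with sections
  have key : ∀ G : Cart X, 0 < hz h.var z G → TR v (cR ν G) (cR ν S) = 0 := by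
    intro G hG
    obtain ⟨Z, hZ⟩ := hasS_of_pos h.var hG
    obtain ⟨m, y, hy, hdec⟩ := Pool.Agent.H39.TZ.T_dec h hr htr hS hZ
    have h1 : (LinearMap.applyₗ (R := ℝ) (cR ν S)).comp (TR.flip (cR ν G)) = ∑ i, dR hν h.var (y i) := by
      refine ext_uniq hν fun U => ?_
      rw [LinearMap.sum_apply, LinearMap.comp_apply, LinearMap.applyₗ_apply_apply, LinearMap.flip_apply, hT, hdec]
      exact Finset.sum_congr rfl fun i _ => (dR_ci hν h.var h.amp (hy i).2 U).symm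
    have h2 := congrArg (fun f => f v) h1
    change TR v (cR ν G) (cR ν S) = (∑ i, dR hν h.var (y i)) v at h2
    rw [h2, LinearMap.sum_apply]
    exact Finset.sum_eq_zero fun i _ => hd _ ⟨(hasS_lt h.var hZ (hy i).1).1, (hy i).2⟩
  have hamp : ∀ B : Cart X, Ample B → TR v (cR ν B) (cR ν S) = 0 := by
    intro B hB
    obtain ⟨m, hm, hH, hb⟩ := exists_bpf h.var hB
    have h1 := key _ (Pool.Agent.H20.TQ.bpf_res h hb z)
    have h2 : cR ν (B ^ m) = (m : ℝ) • cR ν B := by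
      change rv (ci ν (B ^ m)) = _
      rw [ci_pow, rv_smul, Int.cast_natCast]
    rw [h2, map_smul, LinearMap.smul_apply, smul_eq_mul] at h1
    have h3 : (m : ℝ) ≠ 0 := by
      have : m ≠ 0 := by omega
      exact_mod_cast this
    exact (mul_eq_zero.1 h1).resolve_left h3
  obtain ⟨A, hA⟩ := h.amp
  have h3 : (TR v).flip (cR ν S) = 0 := ext_uniq hν fun W => by
    obtain ⟨n, hn⟩ := Pool.Agent.H24.VP.exists_amp h.var hA W
    rw [LinearMap.flip_apply, LinearMap.zero_apply]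
    have h4 := hamp _ (hn n le_rfl)
    have h5 := hamp A hA
    have h6 : cR ν (A ^ n * W) = (n : ℝ) • cR ν A + cR ν W := by
      change rv (ci ν (A ^ n * W)) = _
      rw [ci_mul, rv_add, ci_pow, rv_smul, Int.cast_natCast]
    rw [h6, map_add, map_smul, LinearMap.add_apply, LinearMap.smul_apply, h5, smul_zero, zero_add] at h4
    exact h4
  have h4 := congrArg (fun f => f w) h3
  simpa using h4

/-- the real index theorem, all curves -/
theorem curves_zero [CharZero k] [IsAlgClosed k] [T0Space X.P] (h : Hyp X) (hr : RR T l c) (hν : NumR ν)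
    (hT : ∀ U V W, TR (cR ν U) (cR ν V) (cR ν W) = T U V W) (hA : Ample A)
    (h1 : ∀ u, TR v (cR ν A) u = 0) (h2 : TR v v (cR ν A) = 0) (hx : Algebra.trdeg k (X.kap x) = 1) :
    dR hν h.var x v = 0 := by
  -- prime divisors
  have hprm : ∀ (P : PDiv X) (S : Cart X), SPr X P.η S → TR v v (cR ν S) ≤ 0 := by
    intro P S hS
    by_contra hcon
    push Not at hcon
    have h3 := dec_zero h hr hν hT (trdeg_pdiv h P) hS
      (fun y hy => Pool.Agent.H89.RT.hc_nn h hr hν hT (trdeg_pdiv h P) hS hA (h1 _) hcon.le hy) v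
    exact hcon.ne' h3
  have heff : ∀ W : Cart X, Effective W → TR v v (cR ν W) ≤ 0 := by
    intro W hW
    obtain ⟨Ls, U, h3, h4, h5, h6⟩ := Pool.Agent.H24.VP.fac_eff h hr hW
    rw [h6, cR_mul, map_add, list_tr, tr_triv h hr hν hT h4 h5, add_zero]
    have h7 : 0 ≤ (Ls.map fun x => - TR v v (cR ν x.2)).sum := by
      refine List.sum_nonneg fun x hx => ?_
      obtain ⟨y, hy, rfl⟩ := List.mem_map.1 hx
      exact neg_nonneg.2 (hprm y.1 y.2 (h3 y hy))
    have h8 : (Ls.map fun x => - TR v v (cR ν x.2)).sum = - (Ls.map fun x => TR v v (cR ν x.2)).sum := by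
      clear h3 h6 h7
      induction Ls with
      | nil => simp
      | cons a L ih => rw [List.map_cons, List.sum_cons, ih, List.map_cons, List.sum_cons]; ring
    linarith
  obtain ⟨P, S, hPx, hS⟩ := srf_thr h hx
  have hS0 : TR v v (cR ν S) = 0 := by
    refine le_antisymm (hprm P S hS) ?_
    obtain ⟨n, hn⟩ := Pool.Agent.H24.VP.exists_amp h.var hA S⁻¹
    obtain ⟨m, hm, hH, hb⟩ := exists_bpf h.var (hn n le_rfl)
    obtain ⟨s, hs0, hs⟩ := ex_sec (Pool.Agent.H20.TQ.bpf_pos h hb)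
    have hE : Effective (prin X s hs0 * (A ^ n * S⁻¹) ^ m) := by
      intro y
      have h4 := hs y
      rw [pow_one] at h4
      rw [mul_eq]
      exact h4
    have h3 := heff _ hE
    have h4 : cR ν (prin X s hs0 * (A ^ n * S⁻¹) ^ m) = (m : ℝ) • ((n : ℝ) • cR ν A - cR ν S) := by
      have e1 : ci ν (prin X s hs0) = 0 := by
        unfold ci
        rw [(hν.ker _).2 (numz_prin s hs0)]
        rfl
      change rv (ci ν (prin X s hs0 * (A ^ n * S⁻¹) ^ m)) = _
      rw [ci_mul, e1, zero_add, ci_pow, rv_smul, ci_mul, rv_add, ci_pow, rv_smul, ci_inv, rv_neg, Int.cast_natCast,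
        Int.cast_natCast, ← sub_eq_add_neg]
    rw [h4, map_smul, map_sub, map_smul, h2, smul_zero, zero_sub, smul_eq_mul] at h3
    have h5 : (0 : ℝ) < m := by exact_mod_cast hm
    nlinarith
  exact Pool.Agent.H89.RT.hc h hr hν hT (trdeg_pdiv h P) hS hA (h1 _) hS0 ⟨hPx, hx⟩

/-- **`Vp p` is the line of `p`** -/
theorem ray_of' [CharZero k] [IsAlgClosed k] [T0Space X.P] (h : Hyp X) (hr : RR T l c) (hν : NumR ν)
    (hT : ∀ U V W, TR (cR ν U) (cR ν V) (cR ν W) = T U V W)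
    (hN : ∀ v : Fin r → ℝ, (∀ x : X.P, Algebra.trdeg k (X.kap x) = 1 → dR hν h.var x v = 0) → v = 0)
    (hA : Ample A) (h1 : 0 < TR p (cR ν A) (cR ν A)) (h2 : ∀ w ∈ Vp p, TR p w (cR ν A) = 0) (hw : w ∈ Vp p) :
    ∃ q : ℝ, w = q • p := by
  have hAC : cR ν A ∈ CC ν := cc_amp h.var hν hA
  -- `T(.,.,A) = 0` on `Vp p`
  have h3 : ∀ u ∈ Vp p, ∀ u' ∈ Vp p, TR u u' (cR ν A) = 0 := by
    intro u hu u' hu'
    obtain ⟨a, d, h4, rfl⟩ := vp_sum p hu'
    simp only [map_sum, map_smul, LinearMap.sum_apply, LinearMap.smul_apply, smul_eq_mul]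
    refine Finset.sum_eq_zero fun j _ => ?_
    obtain ⟨D, hD⟩ := ci_surj hν (d j)
    have h5 : rv (d j) = cR ν D := by
      change _ = rv (ci ν D)
      rw [hD]
    rw [h5, vp_tri hr hν hT ⟨A, hA⟩ (by rw [← h5]; exact h2 _ (h4 j)) hu, mul_zero]
  obtain ⟨q, hq⟩ : ∃ q, q = TR w (cR ν A) (cR ν A) / TR p (cR ν A) (cR ν A) := ⟨_, rfl⟩
  obtain ⟨v, hv⟩ : ∃ v, v = w - q • p := ⟨_, rfl⟩
  have hvV : v ∈ Vp p := by
    rw [hv]
    exact (Vp p).sub_mem hw ((Vp p).smul_mem q (self_vp p))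
  have e1 : TR v (cR ν A) (cR ν A) = 0 := by
    rw [hv]
    simp only [map_sub, map_smul, LinearMap.sub_apply, LinearMap.smul_apply, smul_eq_mul]
    rw [hq, div_mul_cancel₀ _ h1.ne', sub_self]
  have e2 := h3 v hvV v hvV
  -- `T(A,A,A) > 0`
  have e3 : 0 < TR (cR ν A) (cR ν A) (cR ν A) := by
    obtain ⟨ε, hε, h4⟩ := (oc_cc h.var hν).sub_small hAC (-p)
    have h5 := tr_nn h hr hν hT (subset_closure hAC) (subset_closure hAC)
      (subset_closure (h4 ε (by rw [abs_of_pos hε])))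
    rw [map_add, map_smul, map_neg, smul_neg, smul_eq_mul, tr_s23 hr hν hT _ _ p, tr_s12 hr hν hT _ p] at h5
    have h6 := mul_pos hε h1
    linarith
  have e4 : ∀ u, TR (cR ν A) v u = 0 := fun u =>
    hd_eq h hr hν hT (p := cR ν A) (L := cR ν A) (subset_closure hAC) e3
      (by rw [tr_s12 hr hν hT]; exact e1) (by rw [tr_s12 hr hν hT, tr_s23 hr hν hT]; exact e2) u
  have e5 : v = 0 := hN v fun x hx => curves_zero h hr hν hT hA
    (fun u => by rw [tr_s12 hr hν hT]; exact e4 u) e2 hx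
  refine ⟨q, ?_⟩
  rw [hv] at e5
  exact sub_eq_zero.1 e5

end Pool.Agent.H20.RT
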