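import Pool.Agent.H20.RT.Ray
import Pool.Agent.H83.RT.Nz

/-!
# [H20 RT RayF] THEOREM R (MP_e49dc9_ag), Part 2: `ray_of`
-/

set_option autoImplicit false

namespace Pool.Agent.H20.RT

open Pool.Agent.H54.RV Pool.Agent.H83.TU Pool.Agent.H83.TK Pool.Agent.H20.TD Pool.Agent.H20.TP
open Pool.Agent.H24.VP (RR chS)

variable {k K : Type} [Field k] [Field K] [Algebra k K] {X : Mod k K} {r : ℕ}
  {ν : Cart X →* Multiplicative (Fin r → ℤ)} {T : Cart X → Cart X → Cart X → ℝ} {l : Cart X → ℝ} {c : ℝ} {TR : Tri3 r}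
  {p w : Fin r → ℝ} {A : Cart X}

/-- **`Vp p` is the line of `p`** -/
theorem ray_of [CharZero k] [IsAlgClosed k] [T0Space X.P] (h : Hyp X) (hr : RR T l c) (hν : NumR ν)
    (hT : ∀ U V W, TR (cR ν U) (cR ν V) (cR ν W) = T U V W) (hA : Ample A)
    (h1 : 0 < TR p (cR ν A) (cR ν A)) (h2 : ∀ w ∈ Vp p, TR p w (cR ν A) = 0) (hw : w ∈ Vp p) :
    ∃ q : ℝ, w = q • p :=
  ray_of' h hr hν hT (fun _ hv => Pool.Agent.H83.RT.num_zero h hr hν hT hv) hA h1 h2 hw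

end Pool.Agent.H20.RT
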